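import Pool.Agent.H29.RS.Targets
import Pool.Agent.H25.MZ.FG3

/-!
# Orders of zeros modulo `m`, short intervals, integer dilations: Dirichlet `L`-functions
-/

set_option autoImplicit false

open Complex MeasureTheory Set Filter Topology

namespace Pool.Agent.H81.RS

open Pool.Agent.H29.RT Pool.Agent.H29.RS Pool.Agent.H25.DL Pool.Agent.H25.DP Pool.Agent.H25.MZ
open Pool.Agent.H23.GLH Pool.Agent.H25.HK Pool.Agent.H48.DL

lemma GD_agrees (π : PrimChar) (L : LF) (hnum : L.num = π.L) (hden : L.den = fun _ => 1) :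
    Agrees L π.L := by
  intro z hz
  have h2I : 0 < (2 + I : ℂ).im := by simp
  have h2I' : 1 < (2 + I : ℂ).re := by simp
  have h1 : analyticOrderAt L.num z ≠ ⊤ :=
    order_ne_top_of_ne (fun s hs => (L.diff s hs).1) h2I
      (Pool.Agent.H62.DL.num_ne L _ h2I' h2I) hz
  have h3 : analyticOrderAt L.den z = 0 := by
    rw [hden]
    exact analyticOrderAt_eq_zero.2 (Or.inr one_ne_zero)
  have h2 : meromorphicOrderAt L.den z = 0 := by
    classical
    rw [hden, meromorphicOrderAt_const, if_neg one_ne_zero]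
  refine ⟨?_, h1, ?_⟩
  · rw [h3]
    exact ENat.zero_ne_top
  · rw [h2, add_zero, hnum]

lemma GD_toNat (a : ℤ) : ((a.toNat : ℤ) - ((-a).toNat : ℤ) : ℤ) = a := by
  rcases le_total 0 a with h4 | h4
  · rw [Int.toNat_of_nonneg h4, Int.toNat_of_nonpos (by omega)]; simp
  · rw [Int.toNat_of_nonneg (by omega : 0 ≤ -a), Int.toNat_of_nonpos h4]; simp

lemma GD_toNatC (a : ℤ) : ((a.toNat : ℂ) - ((-a).toNat : ℂ)) = (a : ℂ) := by
  have h2 : (((a.toNat : ℤ) - ((-a).toNat : ℤ) : ℤ) : ℂ) = ((a : ℤ) : ℂ) := by rw [GD_toNat]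
  push_cast at h2
  exact h2

lemma GD_toNatR (a : ℤ) : ((a.toNat : ℝ) - ((-a).toNat : ℝ)) = (a : ℝ) := by
  have h2 : (((a.toNat : ℤ) - ((-a).toNat : ℤ) : ℤ) : ℝ) = ((a : ℤ) : ℝ) := by rw [GD_toNat]
  push_cast at h2
  exact h2

lemma GD_sub {k n : ℕ} (a : Fin k → ℕ) (v : ℕ) (e : Fin n ≃ {i : Fin k // a i = v})
    {M : Type} [AddCommMonoid M] (g : Fin k → M) :
    ∑ j, g (e j).1 = ∑ i, if a i = v then g i else 0 := by
  rw [Equiv.sum_comp e (fun x => g x.1), ← Finset.sum_filter]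
  exact (Finset.sum_subtype _ (by simp) _).symm

/-- the mean for the members of the family with dilation `v` -/
lemma GD_mean (h3 : T_MND) (k : ℕ) (χ : Fin k → PrimChar) (a : Fin k → ℕ) (τ : Fin k → ℝ)
    (c : Fin k → ℤ) (m : ℕ) (hm : 1 ≤ m)
    (hinj : ∀ i j, χ i = χ j → a i = a j → τ i = τ j → i = j) (v : ℕ) :
    Mean (fun p => ‖(∑ i, if a i = v then
        (c i : ℂ) * chz (χ i) p * (p : ℂ) ^ (-(τ i * I) : ℂ) else 0) / m‖ ^ 2)
      ((∑ i, if a i = v then (c i : ℝ) ^ 2 else 0) / m ^ 2) := by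
  classical
  obtain ⟨n, ⟨e⟩⟩ : ∃ n, Nonempty (Fin n ≃ {i : Fin k // a i = v}) :=
    ⟨_, ⟨(Fintype.equivFin _).symm⟩⟩
  have h5 := h3 n (fun j => χ (e j).1) (fun j => τ (e j).1) (fun j => c (e j).1) m hm ?_
  · have h6 : ∀ p : ℕ, ∑ j, ((c (e j).1 : ℤ) : ℂ) * chz (χ (e j).1) p *
        (p : ℂ) ^ (-(τ (e j).1 * I) : ℂ) = ∑ i, if a i = v then
          (c i : ℂ) * chz (χ i) p * (p : ℂ) ^ (-(τ i * I) : ℂ) else 0 :=
      fun p => GD_sub a v e (fun i => (c i : ℂ) * chz (χ i) p * (p : ℂ) ^ (-(τ i * I) : ℂ))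
    have h7 : ∑ j, ((c (e j).1 : ℤ) : ℝ) ^ 2 = ∑ i, if a i = v then (c i : ℝ) ^ 2 else 0 :=
      GD_sub a v e (fun i => (c i : ℝ) ^ 2)
    rw [h7] at h5
    simp only [h6] at h5
    exact h5
  · intro i j hχ hτ
    apply e.injective
    exact Subtype.ext (hinj _ _ hχ ((e i).2.trans (e j).2.symm) hτ)

/-- (GD) -/
theorem pf_GD (h1 : T_FIW) (h2 : T_RVS) (h3 : T_MND) (h4 : Pool.Agent.H25.DP.T_DI2) : T_GD := by
  classical
  intro k χ a τ c m κ ε ρ ha hinj hd0 hdm hκ hsq hε hρ1 hρ2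
  choose L hLn hnum hden hA hh using fun i => h4 (χ i)
  have hL : ∀ i, Agrees (L i) (χ i).L := fun i => GD_agrees (χ i) (L i) (hnum i) (hden i)
  have hd0' : (0 : ℝ) < ∑ i, (c i : ℝ) * a i := by exact_mod_cast hd0
  have hm : 1 ≤ m := by
    rcases Nat.eq_zero_or_pos m with hm | hm
    · subst hm
      rw [Nat.cast_zero, mul_zero] at hdm
      linarith
    · exact hm
  let F : Fam :=
    { I := Σ i : Fin k, Fin (c i).toNat
      J := Σ i : Fin k, Fin (-c i).toNat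
      fI := inferInstance
      fJ := inferInstance
      p := fun x => ⟨L x.1, (a x.1 : ℝ), τ x.1, by exact_mod_cast ha x.1⟩
      q := fun x => ⟨L x.1, (a x.1 : ℝ), τ x.1, by exact_mod_cast ha x.1⟩ }
  have hFd : F.d = ∑ i, (c i : ℝ) * a i := by
    change ∑ x : (Σ i : Fin k, Fin (c i).toNat), (a x.1 : ℝ) * ((L x.1).n : ℝ) -
      ∑ x : (Σ i : Fin k, Fin (-c i).toNat), (a x.1 : ℝ) * ((L x.1).n : ℝ) = _
    rw [sum_sigma_fin (fun i => (c i).toNat) (fun i => (a i : ℝ) * ((L i).n : ℝ)),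
      sum_sigma_fin (fun i => (-c i).toNat) (fun i => (a i : ℝ) * ((L i).n : ℝ)),
      ← Finset.sum_sub_distrib]
    refine Finset.sum_congr rfl fun i _ => ?_
    rw [hLn, nsmul_eq_mul, nsmul_eq_mul, Nat.cast_one, mul_one, ← sub_mul, GD_toNatR]
  have hA' : ∀ i, a i ≤ ∑ j, a j := fun i =>
    Finset.single_le_sum (f := a) (fun j _ => Nat.zero_le _) (Finset.mem_univ i)
  have hp1 : ∀ i : F.I, ∃ n : ℕ, 1 ≤ n ∧ n ≤ (∑ j, a j) ∧ (F.p i).r = n := fun x =>
    ⟨a x.1, ha x.1, hA' x.1, rfl⟩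
  have hq1 : ∀ j : F.J, ∃ n : ℕ, 1 ≤ n ∧ n ≤ (∑ j, a j) ∧ (F.q j).r = n := fun x =>
    ⟨a x.1, ha x.1, hA' x.1, rfl⟩
  -- the mean
  have hmean : ∀ v : ℕ, 1 ≤ v → v ≤ (∑ j, a j) →
      Mean (fun p => ‖(∑ i, (if (F.p i).r = v then (p : ℂ) ^ (-((F.p i).τ * I) : ℂ) *
            ∑ k, (F.p i).L.h k p else 0) -
          ∑ j, (if (F.q j).r = v then (p : ℂ) ^ (-((F.q j).τ * I) : ℂ) *
            ∑ k, (F.q j).L.h k p else 0)) / m‖ ^ 2)
        ((∑ i, if a i = v then (c i : ℝ) ^ 2 else 0) / m ^ 2) := by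
    intro v _ _
    have h5 := GD_mean h3 k χ a τ c m hm hinj v
    have h6 : (fun p : ℕ => ‖(∑ i, (if (F.p i).r = v then (p : ℂ) ^ (-((F.p i).τ * I) : ℂ) *
            ∑ k, (F.p i).L.h k p else 0) -
          ∑ j, (if (F.q j).r = v then (p : ℂ) ^ (-((F.q j).τ * I) : ℂ) *
            ∑ k, (F.q j).L.h k p else 0)) / m‖ ^ 2) =
        fun p : ℕ => ‖(∑ i, if a i = v then
          (c i : ℂ) * chz (χ i) p * (p : ℂ) ^ (-(τ i * I) : ℂ) else 0) / m‖ ^ 2 := by
      ext p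
      congr 3
      have h7 : ∀ i : Fin k, ∑ l, (L i).h l p = chz (χ i) p := by
        intro i
        simp only [hh]
        rw [Finset.sum_const, Finset.card_univ, Fintype.card_fin, hLn, one_smul]
      change ∑ x : (Σ i : Fin k, Fin (c i).toNat), (if (a x.1 : ℝ) = v then
          (p : ℂ) ^ (-(τ x.1 * I) : ℂ) * (∑ l, (L x.1).h l p) else 0) -
        ∑ x : (Σ i : Fin k, Fin (-c i).toNat), (if (a x.1 : ℝ) = v then
          (p : ℂ) ^ (-(τ x.1 * I) : ℂ) * (∑ l, (L x.1).h l p) else 0) = _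
      rw [sum_sigma_fin (fun i => (c i).toNat) (fun i => if (a i : ℝ) = v then
          (p : ℂ) ^ (-(τ i * I) : ℂ) * (∑ l, (L i).h l p) else 0),
        sum_sigma_fin (fun i => (-c i).toNat) (fun i => if (a i : ℝ) = v then
          (p : ℂ) ^ (-(τ i * I) : ℂ) * (∑ l, (L i).h l p) else 0), ← Finset.sum_sub_distrib]
      refine Finset.sum_congr rfl fun i _ => ?_
      by_cases hv : a i = v
      · rw [if_pos hv, if_pos (by rw [hv]), h7, nsmul_eq_mul, nsmul_eq_mul, ← sub_mul, GD_toNatC]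
        ring
      · rw [if_neg hv, if_neg (by exact_mod_cast hv), nsmul_zero, nsmul_zero, sub_zero]
    rw [h6]
    exact h5
  have hm0 : (0 : ℝ) < (m : ℝ) ^ 2 := by
    have : (0 : ℝ) < m := by exact_mod_cast hm
    positivity
  have hsum : ∑ v ∈ Finset.Icc 1 (∑ j, a j), (∑ i, if a i = v then (c i : ℝ) ^ 2 else 0) /
      (m : ℝ) ^ 2 = (∑ i, (c i : ℝ) ^ 2) / m ^ 2 := by
    rw [← Finset.sum_div, Finset.sum_comm]
    congr 1
    refine Finset.sum_congr rfl fun i _ => ?_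
    rw [Finset.sum_ite_eq, if_pos (Finset.mem_Icc.2 ⟨ha i, hA' i⟩)]
  have hα0 : 0 < (∑ i, (c i : ℝ) ^ 2) / (m : ℝ) ^ 2 := by
    refine div_pos ?_ hm0
    have h5 : ∃ i, c i ≠ 0 := by
      by_contra h6
      push Not at h6
      simp [h6] at hd0
    obtain ⟨i, hi⟩ := h5
    refine Finset.sum_pos' (fun j _ => sq_nonneg _) ⟨i, Finset.mem_univ i, ?_⟩
    have h7 : (c i : ℝ) ≠ 0 := by exact_mod_cast hi
    positivity
  have hα1 : (∑ i, (c i : ℝ) ^ 2) / (m : ℝ) ^ 2 ≠ 1 := by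
    intro h
    rw [div_eq_one_iff_eq hm0.ne'] at h
    exact hsq (by exact_mod_cast h)
  have hRV := h2 F m (∑ j, a j) _ hm hp1 hq1 hmean (by rw [hsum]; exact hα0)
  rw [hsum] at hRV
  obtain ⟨T₀, h⟩ := h1 F m _ κ ε ρ (fun i => ⟨a i.1, ha i.1, rfl⟩) (fun j => ⟨a j.1, ha j.1, rfl⟩)
    hm (by rw [hFd]; exact hd0') (by rw [hFd]; exact hdm) hκ hα0 hα1 hRV hε
    (by
      intro h
      rw [div_lt_one hm0] at h
      rw [hFd]
      exact hρ1 (by exact_mod_cast h))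
    (by
      intro h
      rw [one_lt_div hm0] at h
      rw [hFd]
      exact hρ2 (by exact_mod_cast h))
  obtain ⟨T₁, hT₁⟩ := exists_height (fun i : Fin k => (a i : ℝ)) τ 1 one_pos
    (fun i => by exact_mod_cast ha i)
  refine ⟨max (max T₀ 0) T₁, fun T hT => ?_⟩
  have hT0 : 0 ≤ T := ((le_max_right _ _).trans (le_max_left _ _)).trans hT
  obtain ⟨Z, hZ, hz⟩ := h T (((le_max_left _ _).trans (le_max_left _ _)).trans hT)
  refine ⟨Z, hZ, fun z hzZ => ?_⟩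
  obtain ⟨h1', h2', h3'⟩ := hz z hzZ
  have h1q : T / 4 ≤ z.im := by linarith
  refine ⟨h1', h2', ?_⟩
  have hp : ∀ i, 0 < (wl (a i : ℝ) (τ i) z).im :=
    hT₁ T ((le_max_right _ _).trans hT) z h1q
  have hN := order_N F z (fun x => hp x.1) (fun x => hp x.1)
  have hM := order_M F z (fun x => hp x.1) (fun x => hp x.1)
  choose u b hab1 hab2 hab3 using fun i => nat_orders (hL i) (hp i)
  have hN' : analyticOrderAt F.N z =
      ((∑ i, (c i).toNat * u i + ∑ i, (-c i).toNat * b i : ℕ) : ℕ∞) := by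
    rw [hN]
    change (∑ x : (Σ i : Fin k, Fin (c i).toNat), analyticOrderAt (L x.1).num
        (wl (a x.1 : ℝ) (τ x.1) z)) + ∑ x : (Σ i : Fin k, Fin (-c i).toNat),
        analyticOrderAt (L x.1).den (wl (a x.1 : ℝ) (τ x.1) z) = _
    rw [sum_sigma_fin (fun i => (c i).toNat)
        (fun i => analyticOrderAt (L i).num (wl (a i : ℝ) (τ i) z)),
      sum_sigma_fin (fun i => (-c i).toNat)
        (fun i => analyticOrderAt (L i).den (wl (a i : ℝ) (τ i) z))]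
    simp only [hab1, hab2, nsmul_eq_mul]
    push_cast
    rfl
  have hM' : analyticOrderAt F.M z =
      ((∑ i, (c i).toNat * b i + ∑ i, (-c i).toNat * u i : ℕ) : ℕ∞) := by
    rw [hM]
    change (∑ x : (Σ i : Fin k, Fin (c i).toNat), analyticOrderAt (L x.1).den
        (wl (a x.1 : ℝ) (τ x.1) z)) + ∑ x : (Σ i : Fin k, Fin (-c i).toNat),
        analyticOrderAt (L x.1).num (wl (a x.1 : ℝ) (τ x.1) z) = _
    rw [sum_sigma_fin (fun i => (c i).toNat)
        (fun i => analyticOrderAt (L i).den (wl (a i : ℝ) (τ i) z)),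
      sum_sigma_fin (fun i => (-c i).toNat)
        (fun i => analyticOrderAt (L i).num (wl (a i : ℝ) (τ i) z))]
    simp only [hab1, hab2, nsmul_eq_mul]
    push_cast
    rfl
  rintro ⟨j, hj⟩
  apply h3' j
  rw [hN', hM', ← Nat.cast_add, Nat.cast_inj]
  have hord : ∀ i, (meromorphicOrderAt (χ i).L
      (1 / 2 + (a i : ℂ) * (z - 1 / 2) + τ i * I)).untop₀ = (u i : ℤ) - (b i : ℤ) := by
    intro i
    have e : (1 / 2 + (a i : ℂ) * (z - 1 / 2) + τ i * I : ℂ) = wl (a i : ℝ) (τ i) z := by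
      unfold wl
      push_cast
      ring
    rw [e, hab3 i, WithTop.untop₀_coe]
  simp only [hord] at hj
  have key : ∀ i, ((c i).toNat : ℤ) * u i + ((-c i).toNat : ℤ) * b i =
      ((c i).toNat : ℤ) * b i + ((-c i).toNat : ℤ) * u i + c i * ((u i : ℤ) - (b i : ℤ)) := by
    intro i
    rcases le_total 0 (c i) with h4 | h4
    · rw [Int.toNat_of_nonneg h4, Int.toNat_of_nonpos (by omega)]
      push_cast
      ring
    · rw [Int.toNat_of_nonneg (by omega : 0 ≤ -c i), Int.toNat_of_nonpos h4]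
      push_cast
      ring
  have h5 : ((∑ i, (c i).toNat * u i + ∑ i, (-c i).toNat * b i : ℕ) : ℤ) =
      ((∑ i, (c i).toNat * b i + ∑ i, (-c i).toNat * u i + m * j : ℕ) : ℤ) := by
    push_cast
    rw [← hj, ← Finset.sum_add_distrib, ← Finset.sum_add_distrib, ← Finset.sum_add_distrib]
    exact Finset.sum_congr rfl fun i _ => key i
  exact_mod_cast h5

end Pool.Agent.H81.RS
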