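import Pool.Agent.H81.RS.Lift

namespace Pool.Agent.H81.RS

open Polynomial

universe u

variable {K : Type u} [Field K]

theorem coeff_res_top {D : ℕ} {F : K[X][X]} (hF : DegLE F D) :
    (res F).coeff (3 * D) = cf F 0 D := by
  have e1 : res F = ∑ j ∈ Finset.range (F.natDegree + 1), F.coeff j * X ^ (3 * j) := by
    rw [res, coe_evalRingHom, eval_eq_sum_range]
    apply Finset.sum_congr rfl
    intro j _
    rw [← pow_mul]
  rw [e1, finsetSum_coeff]
  rw [Finset.sum_eq_single D]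
  · rw [coeff_mul_X_pow', if_pos le_rfl, Nat.sub_self, cf]
  · intro j _ hj
    rw [coeff_mul_X_pow']
    split_ifs with h
    · by_contra hne
      have := hF (3 * D - 3 * j) j hne
      omega
    · rfl
  · intro hD
    rw [Finset.mem_range] at hD
    rw [coeff_mul_X_pow', if_pos le_rfl, Nat.sub_self,
      coeff_eq_zero_of_natDegree_lt (show F.natDegree < D by omega), coeff_zero]

/-- a monic product of linear factors in two letters -/
theorem two_factor {s s' : K} (A B : ℕ) :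
    ((X - C s) ^ A * (X - C s') ^ B : K[X]).Monic ∧
    ((X - C s) ^ A * (X - C s') ^ B : K[X]).natDegree = A + B ∧
    ((X - C s) ^ A * (X - C s') ^ B : K[X]).nextCoeff = -((A : K) * s + B * s') := by
  have h1 : ((X - C s) ^ A : K[X]).Monic := (monic_X_sub_C s).pow A
  have h2 : ((X - C s') ^ B : K[X]).Monic := (monic_X_sub_C s').pow B
  refine ⟨h1.mul h2, ?_, ?_⟩
  · rw [h1.natDegree_mul h2, (monic_X_sub_C s).natDegree_pow, (monic_X_sub_C s').natDegree_pow,
      natDegree_X_sub_C, natDegree_X_sub_C, mul_one, mul_one]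
  · rw [h1.nextCoeff_mul h2, nextCoeff_X_sub_C_pow, nextCoeff_X_sub_C_pow]
    ring

variable [CharZero K] (S : Conf K)

omit [CharZero K] in
theorem Conf.m_pos : 0 < S.m := by
  have := S.μ_lt
  omega

omit [CharZero K] in
theorem Conf.res_c' : res S.c = C S.κ * ((X - C S.P) ^ (3 * S.m - S.μ) * (X - C S.Q) ^ S.μ) := by
  rw [res, coe_evalRingHom, S.res_c, mul_assoc]

omit [CharZero K] in
theorem Conf.sum_zero : ((3 * S.m - S.μ : ℕ) : K) * S.P + (S.μ : K) * S.Q = 0 := by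
  have hm : 0 < S.m := by have := S.μ_lt; omega
  have h1 := coeff_res_pred hm S.deg_c
  obtain ⟨h2, h3, h4⟩ := two_factor (s := S.P) (s' := S.Q) (3 * S.m - S.μ) S.μ
  rw [show res S.c = C S.κ * ((X - C S.P) ^ (3 * S.m - S.μ) * (X - C S.Q) ^ S.μ) by
    rw [res, coe_evalRingHom, S.res_c, mul_assoc], coeff_C_mul] at h1
  have h5 : ((X - C S.P) ^ (3 * S.m - S.μ) * (X - C S.Q) ^ S.μ : K[X]).coeff (3 * S.m - 1) = 0 :=
    (mul_eq_zero.mp h1).resolve_left S.κ_ne
  have h6 : 3 * S.m - S.μ + S.μ = 3 * S.m := by have := S.μ_lt; omega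
  rw [h6] at h3
  rw [nextCoeff_of_natDegree_pos (by omega), h3, h5] at h4
  linear_combination h4

theorem Conf.Q_ne : S.Q ≠ 0 := by
  intro h
  have h1 := S.sum_zero
  rw [h, mul_zero, add_zero] at h1
  rcases mul_eq_zero.mp h1 with h2 | h2
  · have h3 : 3 * S.m - S.μ = 0 := by exact_mod_cast h2
    have := S.μ_lt
    omega
  · exact S.P_ne (by rw [h2, h])

/-- test functions without base points -/
theorem exists_test (hb : S.b + 1 ≤ 9 * S.a) (s₀ : K) :
    ∃ (l : ℕ) (f : K[X][X]), 0 < l ∧ Good S f 0 l ∧ (s₀ ≠ S.Q → (res f).eval s₀ ≠ 0) ∧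
      cf f 0 (3 * l) ≠ 0 := by
  classical
  have ha := S.a_pos
  set q : ℕ := 18 * S.a - 2 with hq
  obtain ⟨a₁, ha₁⟩ := Infinite.exists_notMem_finset ({s₀, -((q : K) * S.Q) - s₀} : Finset K)
  simp only [Finset.mem_insert, Finset.mem_singleton, not_or] at ha₁
  set a₂ : K := -((q : K) * S.Q) - a₁ with ha₂
  have ha₂' : a₂ ≠ s₀ := by
    intro h
    apply ha₁.2
    rw [← h, ha₂]; ring
  set P : K[X] := (X - C S.Q) ^ q * ((X - C a₁) ^ 1 * (X - C a₂) ^ 1) with hP
  have hPm : P.Monic := by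
    rw [hP]
    exact ((monic_X_sub_C _).pow _).mul (two_factor 1 1).1
  have hPd : P.natDegree = 9 * (2 * S.a) := by
    rw [hP, ((monic_X_sub_C _).pow _).natDegree_mul (two_factor 1 1).1, (two_factor 1 1).2.1,
      (monic_X_sub_C _).natDegree_pow, natDegree_X_sub_C]
    omega
  have hPn : P.nextCoeff = 0 := by
    rw [hP, ((monic_X_sub_C _).pow _).nextCoeff_mul (two_factor 1 1).1, (two_factor 1 1).2.2,
      nextCoeff_X_sub_C_pow, ha₂]
    push_cast
    ring
  have hPc : P.coeff (9 * (2 * S.a) - 1) = 0 := by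
    rw [← hPd, ← nextCoeff_of_natDegree_pos (by omega), hPn]
  obtain ⟨f, hf1, hf2, hf3⟩ := lift (K := K) (a := S.a) (b := S.b) S.Q_ne (δ := 0) (Nat.zero_le _)
    (Nat.zero_le _) (by omega) (l := 2 * S.a) (by omega) hPd.le hPc (k := q)
    (Dvd.intro _ rfl) (by
      have : S.a * (S.b + 1) ≤ S.a * (9 * S.a) := Nat.mul_le_mul_left _ hb
      have h2 : q + 2 = 18 * S.a := by omega
      nlinarith)
  refine ⟨2 * S.a, f, by omega, ⟨?_, ?_⟩, ?_, ?_⟩
  · simpa using hf1
  · simpa using hf3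
  · intro hs₀
    rw [hf2, hP, eval_mul, eval_mul, eval_pow, eval_pow, eval_pow]
    simp only [eval_sub, eval_X, eval_C, pow_one]
    refine mul_ne_zero (pow_ne_zero _ (sub_ne_zero.mpr hs₀)) (mul_ne_zero ?_ ?_)
    · exact sub_ne_zero.mpr (fun h => ha₁.1 h.symm)
    · exact sub_ne_zero.mpr (fun h => ha₂' h.symm)
  · rw [← coeff_res_top hf1, hf2, show 3 * (3 * (2 * S.a)) = P.natDegree by rw [hPd]; ring,
      hPm.coeff_natDegree]
    exact one_ne_zero

/-- test function for the exceptional curve -/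
theorem exists_test_Q (hb : S.b + 1 ≤ 9 * S.a) :
    ∃ f : K[X][X], Good S f 0 S.a ∧ (∀ i < S.b, cf (sh S.Q f) i 0 = 0) ∧
      cf (sh S.Q f) S.b 0 ≠ 0 := by
  have ha := S.a_pos
  set r : ℕ := 9 * S.a - S.b with hr
  have hr0 : (r : K) ≠ 0 := by
    have : r ≠ 0 := by omega
    exact_mod_cast this
  set a₁ : K := -((S.b : K) * S.Q) / r with ha₁
  have h1 : (S.b : K) * S.Q + r * a₁ = 0 := by
    rw [ha₁]; field_simp; ring
  have hne : S.Q ≠ a₁ := by
    intro h
    rw [← h, ← add_mul] at h1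
    rcases mul_eq_zero.mp h1 with h2 | h2
    · have : S.b + r = 0 := by exact_mod_cast h2
      omega
    · exact S.Q_ne h2
  set P : K[X] := (X - C S.Q) ^ S.b * (X - C a₁) ^ r with hP
  obtain ⟨hPm, hPd, hPn⟩ := two_factor (s := S.Q) (s' := a₁) S.b r
  rw [← hP] at hPm hPd hPn
  rw [h1, neg_zero] at hPn
  have hPd' : P.natDegree = 9 * S.a := by rw [hPd]; omega
  have hPc : P.coeff (9 * S.a - 1) = 0 := by
    rw [← hPd', ← nextCoeff_of_natDegree_pos (by omega), hPn]
  obtain ⟨f, hf1, hf2, hf3⟩ := lift (K := K) (a := S.a) (b := S.b) S.Q_ne (δ := 0) (Nat.zero_le _)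
    (Nat.zero_le _) (by omega) (l := S.a) ha hPd'.le hPc (k := S.b)
    (Dvd.intro _ rfl) (by rw [add_zero, mul_comm])
  have e1 : (sh S.Q f).coeff 0 = X ^ S.b * (X + C (S.Q - a₁)) ^ r := by
    rw [sh_coeff_zero, hf2, hP, mul_comp, pow_comp, pow_comp]
    congr 2
    · simp
    · simp only [sub_comp, X_comp, C_comp, C_sub]
      ring
  refine ⟨f, ⟨?_, ?_⟩, ?_, ?_⟩
  · simpa using hf1
  · simpa using hf3
  · intro i hi
    rw [cf, e1, coeff_X_pow_mul', if_neg (by omega)]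
  · rw [cf, e1, coeff_X_pow_mul', if_pos le_rfl, Nat.sub_self, coeff_zero_eq_eval_zero]
    simp only [eval_pow, eval_add, eval_X, eval_C, zero_add]
    exact pow_ne_zero _ (sub_ne_zero.mpr hne)

end Pool.Agent.H81.RS
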