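import Pool.Agent.H81.RS.Ev
import Pool.Agent.H81.RS.Tests

namespace Pool.Agent.H81.RS

open Polynomial

universe u v

section ring

variable {K : Type u} [Field K] {A : Type v} [CommRing A] [Algebra K A]

theorem ev_map {B : Type*} [CommRing B] [Algebra K B] (φ : A →ₐ[K] B) (x y : A) (F : K[X][X]) :
    φ (ev x y F) = ev (φ x) (φ y) F := by
  have h : ((φ : A →ₐ[K] B) : A →+* B).comp (ev (K := K) x y) = ev (φ x) (φ y) := by
    apply Polynomial.ringHom_ext'
    · apply Polynomial.ringHom_ext'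
      · ext a
        simp
      · simp
    · simp
  rw [← h]
  rfl

theorem ev_split (x y : A) (G : K[X][X]) :
    ev x y G = aeval x (G.coeff 0) + y * ev x y G.divX := by
  conv_lhs => rw [← X_mul_divX_add G]
  rw [map_add, map_mul, ev_X, ev_C, add_comm]

theorem ev_res (x : A) (F : K[X][X]) : ev x (x ^ 3) F = aeval x (res F) := by
  have h : ev x (x ^ 3) = ((aeval x : K[X] →ₐ[K] A) : K[X] →+* A).comp res := by
    apply Polynomial.ringHom_ext'
    · apply Polynomial.ringHom_ext'
      · ext a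
        simp
      · simp
    · simp
  rw [h]
  rfl

end ring

variable {K : Type u} [Field K] {L : Type v} [Field L] [Algebra K L]

/-- coefficients of `G (X, t)` -/
theorem coeff_ev_X (t : L) (G : K[X][X]) (i : ℕ) :
    ∃ R : K[X], (∀ j, R.coeff j = cf G i j) ∧ (ev (X : L[X]) (C t) G).coeff i = aeval t R := by
  refine ⟨∑ j ∈ Finset.range (G.natDegree + 1), C (cf G i j) * X ^ j, ?_, ?_⟩
  · intro j
    rw [finsetSum_coeff]
    simp only [coeff_C_mul_X_pow]
    rw [Finset.sum_ite_eq]
    split_ifs with h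
    · rfl
    · rw [Finset.mem_range, not_lt] at h
      rw [cf, coeff_eq_zero_of_natDegree_lt (p := G) (by omega), coeff_zero]
  · rw [ev_apply, finsetSum_coeff, map_sum]
    apply Finset.sum_congr rfl
    intro j _
    rw [aeval_X_left_eq_map, ← C_pow, coeff_mul_C, coeff_map, map_mul, map_pow, aeval_C, aeval_X,
      cf]

/-- coefficients of `G (u, X)` -/
theorem coeff_ev_C (t : L) (G : K[X][X]) (j : ℕ) :
    (ev (C t : L[X]) X G).coeff j = aeval t (G.coeff j) := by
  rw [ev_apply, finsetSum_coeff]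
  have e : ∀ k, (aeval (C t : L[X]) (G.coeff k) * X ^ k).coeff j =
      if k = j then aeval t (G.coeff k) else 0 := by
    intro k
    have h1 : aeval (C t : L[X]) (G.coeff k) = C (aeval t (G.coeff k)) := by
      have := (aeval_algebraMap_apply (R := K) L[X] t (G.coeff k))
      simpa using this
    rw [h1, coeff_C_mul_X_pow]
    simp only [eq_comm]
  simp only [e]
  rw [Finset.sum_ite_eq']
  split_ifs with h
  · rfl
  · rw [Finset.mem_range, not_lt] at h
    rw [coeff_eq_zero_of_natDegree_lt (by omega), map_zero]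

variable (V : ValuationSubring L)

theorem val_ev_eq_one (hK : ∀ a : K, V.valuation (algebraMap K L a) ≤ 1) {x y : L}
    (hx : V.valuation x < 1) (hy : V.valuation y < 1) (G : K[X][X]) (h : cf G 0 0 ≠ 0) :
    V.valuation (ev x y G) = 1 := by
  rw [ev_split]
  have h1 : V.valuation (aeval x (G.coeff 0)) = 1 := val_aeval_eq_one V hK hx _ h
  have h2 : V.valuation (y * ev x y G.divX) < 1 := by
    rw [map_mul]
    have h3 : V.valuation (ev x y G.divX) ≤ 1 := by
      apply val_ev_le V hK
      intro i j _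
      exact mul_le_one' (pow_le_one' hx.le i) (pow_le_one' hy.le j)
    calc V.valuation y * V.valuation (ev x y G.divX) ≤ V.valuation y * 1 := by gcongr
      _ < 1 := by rw [mul_one]; exact hy
  rw [Valuation.map_add_eq_of_lt_left]
  · exact h1
  · rw [h1]; exact h2

theorem val_ev_le_one (hK : ∀ a : K, V.valuation (algebraMap K L a) ≤ 1) {x y : L}
    (hx : V.valuation x ≤ 1) (hy : V.valuation y ≤ 1) (G : K[X][X]) :
    V.valuation (ev x y G) ≤ 1 := by
  apply val_ev_le V hK
  intro i j _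
  exact mul_le_one' (pow_le_one' hx i) (pow_le_one' hy j)

/-- the consequence of integrality for arcs -/
def Tst (S : Conf K) (h : K[X][X]) (k : ℕ) (F : K[X][X]) (e1 e2 : ℕ) : Prop :=
  ∀ x y : L, ev x y S.c ≠ 0 → ev x y (cub K) ≠ 0 →
    V.valuation (ev x y h) ≤ V.valuation (ev x y S.c) ^ k →
    V.valuation (ev x y F) ≤
      V.valuation (ev x y S.c) ^ e1 * V.valuation (ev x y (cub K)) ^ e2 →
    ∀ f l, Good S f 0 l → V.valuation (ev x y f) ≤ V.valuation (ev x y (cub K)) ^ l

variable {V} {S : Conf K} {h F : K[X][X]} {k e1 e2 : ℕ}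

theorem ne_zero_of_val_eq_one {x : L} (hx : V.valuation x = 1) : x ≠ 0 := by
  rintro rfl
  rw [map_zero] at hx
  exact zero_ne_one hx

theorem cf_sh_zero (s : K) (G : K[X][X]) : cf (sh s G) 0 0 = (res G).eval s := by
  rw [cf, sh_coeff_zero, coeff_zero_eq_eval_zero, eval_comp]
  simp

/-- arcs through the points of the cubic -/
theorem plane_core [CharZero K] (hb : S.b + 1 ≤ 9 * S.a)
    (hK : ∀ a : K, V.valuation (algebraMap K L a) ≤ 1)
    (hT : Tst V S h k F e1 e2) {s₀ : K} (hP : s₀ ≠ S.P) (hQ : s₀ ≠ S.Q) {u w : L}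
    (hu : V.valuation u < 1) (hw : V.valuation w < 1) (hw0 : w ≠ 0)
    (hF : V.valuation (ev u w (sh s₀ F)) ≤ V.valuation w ^ e2) : False := by
  have hc : V.valuation (ev u w (sh s₀ S.c)) = 1 := by
    apply val_ev_eq_one V hK hu hw
    rw [cf_sh_zero, S.res_c']
    simp only [eval_mul, eval_C, eval_pow, eval_sub, eval_X]
    exact mul_ne_zero S.κ_ne (mul_ne_zero (pow_ne_zero _ (sub_ne_zero.mpr hP))
      (pow_ne_zero _ (sub_ne_zero.mpr hQ)))
  have hg : ev u w (sh s₀ (cub K)) = w := by rw [sh_cub, ev_X]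
  obtain ⟨l, f, hl, hf1, hf2, _⟩ := exists_test S hb s₀
  have hT' := hT (u + algebraMap K L s₀) (w + (u + algebraMap K L s₀) ^ 3)
  simp only [← ev_sh] at hT'
  rw [hc, hg] at hT'
  have h1 := hT' (ne_zero_of_val_eq_one hc) hw0
    (by rw [one_pow]; exact val_ev_le_one V hK hu.le hw.le _)
    (by rw [one_pow, one_mul]; exact hF) f l hf1
  have h2 : V.valuation (ev u w (sh s₀ f)) = 1 := by
    apply val_ev_eq_one V hK hu hw
    rw [cf_sh_zero]
    exact hf2 hQ
  rw [h2] at h1
  exact absurd h1 (not_le.mpr (pow_lt_one₀ zero_le hw hl.ne'))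

end Pool.Agent.H81.RS
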