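import Pool.Agent.H81.RS.Ev

namespace Pool.Agent.H81.RS

open Polynomial Finset

universe u v

section ring

variable {K : Type u} [Field K] {A : Type v} [CommRing A] [Algebra K A]

theorem natDegree_le_of_degLE {D : ℕ} {F : K[X][X]} (hF : DegLE F D) : F.natDegree ≤ D := by
  rw [natDegree_le_iff_coeff_eq_zero]
  intro j hj
  ext i
  rw [coeff_zero]
  by_contra hne
  have := hF i j hne
  omega

theorem natDegree_coeff_le_of_degLE {D : ℕ} {F : K[X][X]} (hF : DegLE F D) (j : ℕ) :
    (F.coeff j).natDegree ≤ D := by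
  rw [natDegree_le_iff_coeff_eq_zero]
  intro i hi
  by_contra hne
  have := hF i j hne
  omega

/-- evaluation of a polynomial of total degree at most `D` -/
theorem ev_sum {D : ℕ} {F : K[X][X]} (hF : DegLE F D) (x y : A) :
    ev x y F = ∑ i ∈ range (D + 1), ∑ j ∈ range (D + 1 - i),
      algebraMap K A (cf F i j) * x ^ i * y ^ j := by
  have h1 : ev x y F = ∑ j ∈ range (D + 1), aeval x (F.coeff j) * y ^ j := by
    rw [ev_apply]
    apply Finset.sum_subset
    · intro j hj
      have := natDegree_le_of_degLE hF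
      rw [Finset.mem_range] at hj ⊢
      omega
    · intro j _ hj
      rw [Finset.mem_range, not_lt] at hj
      rw [coeff_eq_zero_of_natDegree_lt (p := F) (by omega), map_zero, zero_mul]
  have h2 : ∀ j, aeval x (F.coeff j) = ∑ i ∈ range (D + 1), algebraMap K A (cf F i j) * x ^ i := by
    intro j
    have hd := natDegree_coeff_le_of_degLE hF j
    rw [aeval_eq_sum_range' (n := D + 1) (by omega)]
    apply Finset.sum_congr rfl
    intro i _
    rw [Algebra.smul_def, cf]
  rw [h1]
  simp only [h2, Finset.sum_mul]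
  rw [Finset.sum_comm]
  apply Finset.sum_congr rfl
  intro i _
  symm
  apply Finset.sum_subset
  · intro j hj
    rw [Finset.mem_range] at hj ⊢
    omega
  · intro j _ hj
    rw [Finset.mem_range, not_lt] at hj
    have : cf F i j = 0 := by
      by_contra hne
      have := hF i j hne
      omega
    rw [this, map_zero, zero_mul, zero_mul]

/-- the polynomial `Y ^ D * F (X / Y, 1 / Y)` -/
noncomputable def tw (D : ℕ) (F : K[X][X]) : K[X][X] :=
  ∑ k ∈ range (D + 1), C (∑ i ∈ range (D + 1 - k), C (cf F i (D - i - k)) * X ^ i) * X ^ k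

theorem cf_tw (D : ℕ) (F : K[X][X]) (i k : ℕ) :
    cf (tw D F) i k = if i + k ≤ D then cf F i (D - i - k) else 0 := by
  rw [cf, tw, finsetSum_coeff]
  simp only [coeff_C_mul_X_pow]
  rw [Finset.sum_ite_eq]
  split_ifs with h1 h2 h2
  · rw [finsetSum_coeff]
    simp only [coeff_C_mul_X_pow]
    rw [Finset.sum_ite_eq, if_pos]
    rw [Finset.mem_range]; omega
  · rw [finsetSum_coeff]
    simp only [coeff_C_mul_X_pow]
    rw [Finset.sum_ite_eq, if_neg]
    rw [Finset.mem_range]; omega
  · exfalso
    rw [Finset.mem_range] at h1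
    omega
  · rfl

theorem degLE_tw (D : ℕ) (F : K[X][X]) : DegLE (tw D F) D := by
  intro i j hij
  rw [cf_tw] at hij
  by_contra h
  rw [if_neg h] at hij
  exact hij rfl

end ring

variable {K : Type u} [Field K] {L : Type v} [Field L] [Algebra K L]

theorem ev_tw {D : ℕ} {F : K[X][X]} (hF : DegLE F D) {x y : L} (hy : y ≠ 0) :
    y ^ D * ev (x / y) (1 / y) F = ev x y (tw D F) := by
  rw [ev_sum hF, ev_sum (degLE_tw D F), Finset.mul_sum]
  apply Finset.sum_congr rfl
  intro i hi
  rw [Finset.mem_range] at hi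
  rw [Finset.mul_sum, ← Finset.sum_range_reflect]
  apply Finset.sum_congr rfl
  intro j hj
  rw [Finset.mem_range] at hj
  rw [cf_tw, if_pos (by omega), show D + 1 - i - 1 - j = D - i - j by omega]
  have e : y ^ D = y ^ i * y ^ (D - i - j) * y ^ j := by
    rw [← pow_add, ← pow_add]; congr 1; omega
  rw [e, div_pow, one_div_pow]
  field_simp

end Pool.Agent.H81.RS
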