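import Pool.Agent.H81.RS.Arc
import Pool.Agent.H81.RS.Tw

namespace Pool.Agent.H81.RS

open Polynomial

universe u v

variable {K : Type u} [Field K] {L : Type v} [Field L] [Algebra K L]

variable {V : ValuationSubring L} {S : Conf K} {h F : K[X][X]} {k e1 e2 : ℕ}

theorem val_ord (hK : ∀ a : K, V.valuation (algebraMap K L a) ≤ 1) {u w : L} {ρ : V.ValueGroup}
    (hρ : ρ ≤ 1) {a b : ℕ} (hu : V.valuation u ≤ ρ ^ a) (hw : V.valuation w ≤ ρ ^ b) {W : ℕ}
    (G : K[X][X]) (hG : ∀ i j, cf G i j ≠ 0 → W ≤ a * i + b * j) :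
    V.valuation (ev u w G) ≤ ρ ^ W := by
  apply val_ev_le V hK
  intro i j hij
  calc V.valuation u ^ i * V.valuation w ^ j ≤ (ρ ^ a) ^ i * (ρ ^ b) ^ j := by gcongr
    _ = ρ ^ (a * i + b * j) := by rw [← pow_mul, ← pow_mul, ← pow_add]
    _ ≤ ρ ^ W := pow_le_pow_right_of_le_one' hρ (hG i j hij)

theorem cf_sh_c (i : ℕ) : cf (sh S.Q S.c) i 0 =
    (C S.κ * ((X + C (S.Q - S.P)) ^ (3 * S.m - S.μ) * X ^ S.μ)).coeff i := by
  rw [cf, sh_coeff_zero, S.res_c']
  congr 1
  simp only [mul_comp, C_comp, pow_comp, sub_comp, X_comp, C_sub]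
  ring

/-- the value of the equation of `C` along an arc at `Q` -/
theorem val_c_Q (hK : ∀ a : K, V.valuation (algebraMap K L a) ≤ 1) {u w : L} {ρ : V.ValueGroup}
    (hρ0 : 0 < ρ) (hρ : ρ < 1) (hu : V.valuation u = ρ ^ S.a) (hw : V.valuation w < ρ ^ S.b) :
    V.valuation (ev u w (sh S.Q S.c)) = ρ ^ (S.μ * S.a) := by
  have ha := S.a_pos
  have hu1 : V.valuation u < 1 := by rw [hu]; exact pow_lt_one₀ zero_le hρ ha.ne'
  have hw1 : V.valuation w ≤ 1 := hw.le.trans (pow_le_one' hρ.le _)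
  rw [ev_split]
  have h1 : V.valuation (aeval u ((sh S.Q S.c).coeff 0)) = ρ ^ (S.μ * S.a) := by
    rw [val_aeval_eq V hK hu1 _ (n := S.μ), hu, ← pow_mul, mul_comm]
    · intro i hi
      have := cf_sh_c (S := S) i
      rw [cf] at this
      rw [this, coeff_C_mul, coeff_mul_X_pow', if_neg (by omega), mul_zero]
    · have := cf_sh_c (S := S) S.μ
      rw [cf] at this
      rw [this, coeff_C_mul, coeff_mul_X_pow', if_pos le_rfl, Nat.sub_self,
        coeff_zero_eq_eval_zero]
      simp only [eval_pow, eval_add, eval_X, eval_C, zero_add]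
      exact mul_ne_zero S.κ_ne (pow_ne_zero _ (sub_ne_zero.mpr S.P_ne.symm))
  have h2 : V.valuation (w * ev u w (sh S.Q S.c).divX) < ρ ^ (S.μ * S.a) := by
    rw [map_mul]
    calc V.valuation w * V.valuation (ev u w (sh S.Q S.c).divX)
        ≤ V.valuation w * ρ ^ (S.μ * S.a - S.b) := by
          gcongr
          apply val_ord hK hρ.le hu.le hw.le
          intro i j hij
          rw [cf, coeff_divX] at hij
          have h5 := S.ord_c i (j + 1) hij
          rw [Nat.mul_succ] at h5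
          omega
      _ < ρ ^ S.b * ρ ^ (S.μ * S.a - S.b) := mul_lt_mul_of_pos_right hw (pow_pos hρ0 _)
      _ ≤ ρ ^ (S.μ * S.a) := by
          rw [← pow_add]
          exact pow_le_pow_right_of_le_one' hρ.le (by omega)
  rw [Valuation.map_add_eq_of_lt_left]
  · exact h1
  · rw [h1]; exact h2

/-- arcs at the point `Q` -/
theorem Q_core [CharZero K] (hb : S.b + 1 ≤ 9 * S.a)
    (hK : ∀ a : K, V.valuation (algebraMap K L a) ≤ 1)
    (hT : Tst V S h k F e1 e2) (hh : Good S h k 0) {u w : L} {ρ : V.ValueGroup}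
    (hρ0 : 0 < ρ) (hρ : ρ < 1) (hu : V.valuation u = ρ ^ S.a) (hw : V.valuation w < ρ ^ S.b)
    (hw0 : w ≠ 0)
    (hF : V.valuation (ev u w (sh S.Q F)) ≤ ρ ^ (S.μ * S.a * e1) * V.valuation w ^ e2) :
    False := by
  have ha := S.a_pos
  have hu1 : V.valuation u < 1 := by rw [hu]; exact pow_lt_one₀ zero_le hρ ha.ne'
  have hw1 : V.valuation w ≤ 1 := hw.le.trans (pow_le_one' hρ.le _)
  have hc := val_c_Q (S := S) hK hρ0 hρ hu hw
  have hc0 : ev u w (sh S.Q S.c) ≠ 0 := by
    rw [← V.valuation.ne_zero_iff, hc]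
    exact pow_ne_zero _ hρ0.ne'
  have hg : ev u w (sh S.Q (cub K)) = w := by rw [sh_cub, ev_X]
  obtain ⟨f, hf1, hf2, hf3⟩ := exists_test_Q S hb
  have hT' := hT (u + algebraMap K L S.Q) (w + (u + algebraMap K L S.Q) ^ 3)
  simp only [← ev_sh] at hT'
  rw [hc, hg] at hT'
  have h1 := hT' hc0 hw0
    (by
      rw [← pow_mul]
      apply val_ord hK hρ.le hu.le hw.le
      intro i j hij
      have := hh.2 i j hij
      omega)
    (by rw [← pow_mul]; exact hF) f S.a hf1
  have h2 : V.valuation (ev u w (sh S.Q f)) = ρ ^ (S.b * S.a) := by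
    rw [ev_split]
    have h3 : V.valuation (aeval u ((sh S.Q f).coeff 0)) = ρ ^ (S.b * S.a) := by
      rw [val_aeval_eq V hK hu1 _ (n := S.b) hf2 hf3, hu, ← pow_mul, mul_comm]
    have h4 : V.valuation (w * ev u w (sh S.Q f).divX) < ρ ^ (S.b * S.a) := by
      rw [map_mul]
      calc V.valuation w * V.valuation (ev u w (sh S.Q f).divX)
          ≤ V.valuation w * ρ ^ (S.b * (S.a - 1)) := by
            gcongr
            apply val_ord hK hρ.le hu.le hw.le
            intro i j hij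
            rw [cf, coeff_divX] at hij
            have h5 := hf1.2 i (j + 1) hij
            obtain ⟨a', ha'⟩ : ∃ a', S.a = a' + 1 := ⟨S.a - 1, by omega⟩
            rw [ha'] at h5 ⊢
            rw [Nat.add_sub_cancel]
            nlinarith
        _ < ρ ^ S.b * ρ ^ (S.b * (S.a - 1)) :=
            mul_lt_mul_of_pos_right hw (pow_pos hρ0 _)
        _ = ρ ^ (S.b * S.a) := by
            rw [← pow_add]
            congr 1
            obtain ⟨a', ha'⟩ : ∃ a', S.a = a' + 1 := ⟨S.a - 1, by omega⟩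
            rw [ha', Nat.add_sub_cancel]
            ring
    rw [Valuation.map_add_eq_of_lt_left]
    · exact h3
    · rw [h3]; exact h4
  rw [h2] at h1
  have h6 : V.valuation w ^ S.a < ρ ^ (S.b * S.a) := by
    rw [pow_mul]
    exact pow_lt_pow_left₀ hw zero_le ha.ne'
  exact absurd h1 (not_le.mpr h6)

/-- arcs at the cusp -/
theorem cusp_core [CharZero K] (hb : S.b + 1 ≤ 9 * S.a)
    (hK : ∀ a : K, V.valuation (algebraMap K L a) ≤ 1)
    (hT : Tst V S h k F e1 e2) (hh : Good S h k 0) (hFd : DegLE F (S.m * e1 + 3 * e2)) {x y : L}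
    (hx : V.valuation x < 1) (hy : V.valuation y < 1) (hy0 : y ≠ 0) (hxy : y ^ 2 ≠ x ^ 3)
    (hF : V.valuation (ev x y (tw (S.m * e1 + 3 * e2) F)) ≤ V.valuation (y ^ 2 - x ^ 3) ^ e2) :
    False := by
  have hvy : 0 < V.valuation y := by
    rw [zero_lt_iff, V.valuation.ne_zero_iff]; exact hy0
  have hm := S.m_pos
  -- values of C
  have hc1 := ev_tw (L := L) S.deg_c (x := x) hy0
  have hc2 : V.valuation (ev x y (tw S.m S.c)) = 1 := by
    apply val_ev_eq_one V hK hx hy
    rw [cf_tw, if_pos (by omega), Nat.sub_zero, Nat.sub_zero, ← coeff_res_top S.deg_c, S.res_c',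
      coeff_C_mul]
    have h3 := (two_factor (s := S.P) (s' := S.Q) (3 * S.m - S.μ) S.μ)
    have h4 : 3 * S.m - S.μ + S.μ = 3 * S.m := by have := S.μ_lt; omega
    rw [h4] at h3
    have h5 := h3.1.coeff_natDegree
    rw [h3.2.1] at h5
    rw [h5, mul_one]
    exact S.κ_ne
  rw [← hc1, map_mul, map_pow] at hc2
  -- values of the cubic
  have hg : y ^ 3 * ev (x / y) (1 / y) (cub K) = y ^ 2 - x ^ 3 := by
    rw [ev_cub]; field_simp
  have hg1 : V.valuation y ^ 3 * V.valuation (ev (x / y) (1 / y) (cub K)) =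
      V.valuation (y ^ 2 - x ^ 3) := by
    rw [← hg, map_mul, map_pow]
  have hgl : V.valuation (y ^ 2 - x ^ 3) < 1 := by
    refine lt_of_le_of_lt (V.valuation.map_sub _ _) (max_lt ?_ ?_)
    · rw [map_pow]; exact pow_lt_one₀ zero_le hy (by norm_num)
    · rw [map_pow]; exact pow_lt_one₀ zero_le hx (by norm_num)
  obtain ⟨l, f, hl, hf1, _, hf3⟩ := exists_test S hb (0 : K)
  have h1 := hT (x / y) (1 / y)
    (by
      intro h0
      rw [h0, map_zero, mul_zero] at hc2
      exact zero_ne_one hc2)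
    (by
      intro h0
      rw [h0, mul_zero] at hg
      exact hxy (sub_eq_zero.mp hg.symm))
    (by
      have h2 := ev_tw (L := L) (F := h) (D := S.m * k) (x := x) (by
        have := hh.1
        rwa [mul_zero, add_zero] at this) hy0
      have h3 := val_ev_le_one V hK hx.le hy.le (tw (S.m * k) h)
      rw [← h2, map_mul, map_pow] at h3
      have h4 : V.valuation y ^ (S.m * k) * V.valuation (ev (x / y) (1 / y) S.c) ^ k = 1 := by
        rw [pow_mul, ← mul_pow, hc2, one_pow]
      rw [← h4] at h3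
      exact le_of_mul_le_mul_left h3 (pow_pos hvy _))
    (by
      have h2 := ev_tw (L := L) hFd (x := x) hy0
      rw [← h2, map_mul, map_pow, ← hg1] at hF
      have h4 : V.valuation y ^ (S.m * e1 + 3 * e2) *
          (V.valuation (ev (x / y) (1 / y) S.c) ^ e1 *
            V.valuation (ev (x / y) (1 / y) (cub K)) ^ e2) =
          (V.valuation y ^ 3 * V.valuation (ev (x / y) (1 / y) (cub K))) ^ e2 := by
        have h5 : V.valuation y ^ (S.m * e1) * V.valuation (ev (x / y) (1 / y) S.c) ^ e1 = 1 := by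
          rw [pow_mul, ← mul_pow, hc2, one_pow]
        rw [pow_add, mul_mul_mul_comm, h5, one_mul, mul_pow, ← pow_mul]
      rw [← h4] at hF
      exact le_of_mul_le_mul_left hF (pow_pos hvy _)) f l hf1
  have h2 := ev_tw (L := L) (F := f) (D := 3 * l) (x := x) (by
        have := hf1.1
        rwa [mul_zero, zero_add] at this) hy0
  have h3 : V.valuation (ev x y (tw (3 * l) f)) = 1 := by
    apply val_ev_eq_one V hK hx hy
    rw [cf_tw, if_pos (by omega), Nat.sub_zero, Nat.sub_zero]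
    exact hf3
  have h4 : V.valuation y ^ (3 * l) * V.valuation (ev (x / y) (1 / y) f) = 1 := by
    rw [← map_pow, ← map_mul, h2, h3]
  have h5 : V.valuation y ^ (3 * l) * V.valuation (ev (x / y) (1 / y) (cub K)) ^ l < 1 := by
    rw [pow_mul, ← mul_pow, hg1]
    exact pow_lt_one₀ zero_le hgl hl.ne'
  have h6 : V.valuation y ^ (3 * l) * V.valuation (ev (x / y) (1 / y) f) ≤
      V.valuation y ^ (3 * l) * V.valuation (ev (x / y) (1 / y) (cub K)) ^ l := by
    gcongr
  rw [h4] at h6
  exact absurd h6 (not_le.mpr h5)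

end Pool.Agent.H81.RS
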