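import Mathlib

namespace Pool.Agent.H81.RS

open Polynomial

universe u

/-- The coefficient of `x ^ i * z ^ j` in a polynomial `F` in two variables `x = C X`
and `z = X` over `K`. -/
noncomputable def cf {K : Type u} [Field K] (F : K[X][X]) (i j : ℕ) : K := (F.coeff j).coeff i

/-- The total degree of `F` in `x` and `z` is at most `D`. -/
def DegLE {K : Type u} [Field K] (F : K[X][X]) (D : ℕ) : Prop :=
  ∀ i j, cf F i j ≠ 0 → i + j ≤ D

/-- The equation `z - x ^ 3` of the cuspidal cubic. -/
noncomputable def cub (K : Type u) [Field K] : K[X][X] := X - C (X ^ 3)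

/-- `F` written in the local coordinates `x - s` and `z - x ^ 3` of the plane at the point
`(s, s ^ 3)` of the cubic: the polynomial `F (x + s, z + (x + s) ^ 3)`. -/
noncomputable def sh {K : Type u} [Field K] (s : K) : K[X][X] →+* K[X][X] :=
  eval₂RingHom ((C : K[X] →+* K[X][X]).comp (compRingHom (X + C s))) (X + C ((X + C s) ^ 3))

/-- The weighted order of `F` at the point `(s, s ^ 3)` is at least `W`, where `x - s` has
weight `a` and `z - x ^ 3` has weight `b`. -/
def OrdGE {K : Type u} [Field K] (s : K) (a b W : ℕ) (F : K[X][X]) : Prop :=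
  ∀ i j, cf (sh s F) i j ≠ 0 → W ≤ a * i + b * j

/-- A plane curve `C : c = 0` of degree at most `m` that meets the cuspidal cubic `z = x ^ 3`
(cusp at infinity) only in the two points `(P, P ^ 3)` and `(Q, Q ^ 3)`, with multiplicities
`3 m - μ` and `μ`, together with the weights `a`, `b` of an exceptional curve over
`(Q, Q ^ 3)` for which `C` has weighted order `μ a` (this is automatic if `μ a ≤ b`). -/
structure Conf (K : Type u) [Field K] where
  m : ℕ
  μ : ℕ
  a : ℕ
  b : ℕ
  P : K
  Q : K
  κ : K
  c : K[X][X]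
  μ_pos : 0 < μ
  μ_lt : μ < 3 * m
  a_pos : 0 < a
  b_pos : 0 < b
  P_ne : P ≠ Q
  κ_ne : κ ≠ 0
  deg_c : DegLE c m
  ord_c : OrdGE Q a b (μ * a) c
  res_c : c.eval (X ^ 3) = C κ * (X - C P) ^ (3 * m - μ) * (X - C Q) ^ μ

/-- Numerators of regular functions with poles of order at most `e` on `C` and `l` on the
cubic: total degree at most `m e + 3 l` and weighted order at least `μ a e + b l`. -/
def Good {K : Type u} [Field K] (S : Conf K) (F : K[X][X]) (e l : ℕ) : Prop :=
  DegLE F (S.m * e + 3 * l) ∧ OrdGE S.Q S.a S.b (S.μ * S.a * e + S.b * l) F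

end Pool.Agent.H81.RS
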