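import Pool.Agent.H81.RS.Defs

namespace Pool.Agent.H81.RS

open Polynomial

universe u v

section ring

variable {K : Type u} [Field K] {A : Type v} [CommRing A] [Algebra K A]

/-- evaluation of a polynomial in two variables -/
noncomputable def ev (x y : A) : K[X][X] →+* A :=
  eval₂RingHom ((aeval x : K[X] →ₐ[K] A) : K[X] →+* A) y

@[simp] theorem ev_C (x y : A) (P : K[X]) : ev x y (C P) = aeval x P := by
  simp [ev]

@[simp] theorem ev_X (x y : A) : ev (K := K) x y X = y := by
  simp [ev]

theorem ev_CC (x y : A) (a : K) : ev x y (C (C a)) = algebraMap K A a := by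
  simp

theorem ev_cub (x y : A) : ev x y (cub K) = y - x ^ 3 := by
  simp [cub]

theorem ev_apply (x y : A) (F : K[X][X]) :
    ev x y F = ∑ j ∈ Finset.range (F.natDegree + 1), aeval x (F.coeff j) * y ^ j := by
  simp only [ev, coe_eval₂RingHom, eval₂_eq_sum_range, RingHom.coe_coe]

/-- evaluation in the local coordinates -/
theorem ev_sh (s : K) (u w : A) (F : K[X][X]) :
    ev u w (sh s F) = ev (u + algebraMap K A s) (w + (u + algebraMap K A s) ^ 3) F := by
  have h : (ev u w).comp (sh s) =
      ev (u + algebraMap K A s) (w + (u + algebraMap K A s) ^ 3) := by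
    apply Polynomial.ringHom_ext'
    · apply Polynomial.ringHom_ext'
      · ext a
        simp [sh]
      · simp [sh]
    · simp [sh]
  rw [← h]
  rfl

end ring

variable {K : Type u} [Field K] {L : Type v} [Field L] [Algebra K L]

variable (V : ValuationSubring L)

theorem val_le_one_pow {x : L} (hx : V.valuation x ≤ 1) (n : ℕ) : V.valuation (x ^ n) ≤ 1 := by
  rw [map_pow]; exact pow_le_one' hx n

theorem val_K (hK : ∀ a : K, V.valuation (algebraMap K L a) ≤ 1) {a : K} (ha : a ≠ 0) :
    V.valuation (algebraMap K L a) = 1 := by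
  apply le_antisymm (hK a)
  have h1 := hK a⁻¹
  rw [map_inv₀, map_inv₀] at h1
  have h2 : V.valuation (algebraMap K L a) ≠ 0 := by
    rw [Valuation.ne_zero_iff]
    exact (_root_.map_ne_zero _).mpr ha
  have h3 : (0 : V.ValueGroup) < V.valuation (algebraMap K L a) := zero_lt_iff.mpr h2
  exact (inv_le_one₀ h3).mp h1

theorem val_aeval_le (hK : ∀ a : K, V.valuation (algebraMap K L a) ≤ 1) {x : L} {B : V.ValueGroup}
    (P : K[X]) (h : ∀ i, P.coeff i ≠ 0 → V.valuation x ^ i ≤ B) :
    V.valuation (aeval x P) ≤ B := by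
  rw [aeval_eq_sum_range]
  apply Valuation.map_sum_le
  intro i _
  by_cases hi : P.coeff i = 0
  · simp [hi]
  · rw [Algebra.smul_def, map_mul, map_pow, val_K V hK hi, one_mul]
    exact h i hi

theorem val_ev_le (hK : ∀ a : K, V.valuation (algebraMap K L a) ≤ 1) {x y : L}
    {B : V.ValueGroup} (F : K[X][X])
    (h : ∀ i j, cf F i j ≠ 0 → V.valuation x ^ i * V.valuation y ^ j ≤ B) :
    V.valuation (ev x y F) ≤ B := by
  rw [ev_apply]
  apply Valuation.map_sum_le
  intro j _
  rw [aeval_eq_sum_range, Finset.sum_mul]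
  apply Valuation.map_sum_le
  intro i _
  by_cases hi : (F.coeff j).coeff i = 0
  · simp [hi]
  · rw [Algebra.smul_def, map_mul, map_mul, map_pow, map_pow, val_K V hK hi, one_mul]
    exact h i j hi

/-- a polynomial that does not vanish at `0` has value `1` at small arguments -/
theorem val_aeval_eq_one (hK : ∀ a : K, V.valuation (algebraMap K L a) ≤ 1) {x : L}
    (hx : V.valuation x < 1) (P : K[X]) (h : P.coeff 0 ≠ 0) : V.valuation (aeval x P) = 1 := by
  have e : P = C (P.coeff 0) + X * P.divX := by
    rw [add_comm]; exact (X_mul_divX_add P).symm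
  rw [e]
  simp only [map_add, aeval_C, map_mul, aeval_X]
  have h1 : V.valuation (algebraMap K L (P.coeff 0)) = 1 := val_K V hK h
  have h2 : V.valuation (x * aeval x P.divX) < 1 := by
    rw [map_mul]
    have h3 : V.valuation (aeval x P.divX) ≤ 1 := by
      apply val_aeval_le V hK
      intro i _
      exact pow_le_one' hx.le i
    calc V.valuation x * V.valuation (aeval x P.divX) ≤ V.valuation x * 1 := by gcongr
      _ < 1 := by rw [mul_one]; exact hx
  rw [Valuation.map_add_eq_of_lt_left]
  · exact h1
  · rw [h1]; exact h2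

/-- the value of a polynomial at a small argument -/
theorem val_aeval_eq (hK : ∀ a : K, V.valuation (algebraMap K L a) ≤ 1) {x : L}
    (hx : V.valuation x < 1) (P : K[X]) {n : ℕ} (h0 : ∀ i < n, P.coeff i = 0)
    (h : P.coeff n ≠ 0) : V.valuation (aeval x P) = V.valuation x ^ n := by
  obtain ⟨Q, hQ⟩ := X_pow_dvd_iff.mpr h0
  subst hQ
  rw [map_mul, map_pow, aeval_X, map_mul, map_pow]
  rw [val_aeval_eq_one V hK hx Q, mul_one]
  rw [mul_comm, coeff_mul_X_pow'] at h
  simpa using h

/-- Newton polygon of a polynomial over an algebraically closed valued field: if all roots are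
at least `ρ` then the coefficients are dominated by the constant one. -/
theorem root_bound [IsAlgClosed L] {ρ : V.ValueGroup} :
    ∀ (n : ℕ) (P : L[X]), P.natDegree = n → (∀ y, P.IsRoot y → ρ ≤ V.valuation y) →
      ∀ k, V.valuation (P.coeff k) * ρ ^ k ≤ V.valuation (P.coeff 0) := by
  intro n
  induction n with
  | zero =>
    intro P hP _ k
    rcases Nat.eq_zero_or_pos k with rfl | hk
    · simp
    · rw [coeff_eq_zero_of_natDegree_lt (by omega)]
      simp
  | succ n ih =>
    intro P hP hr k
    have hP0 : P ≠ 0 := by rintro rfl; simp at hP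
    have hdeg : P.degree ≠ 0 := by
      rw [degree_eq_natDegree hP0, hP]
      exact_mod_cast Nat.succ_ne_zero n
    obtain ⟨y, hy⟩ := IsAlgClosed.exists_root P hdeg
    obtain ⟨Q, rfl⟩ := dvd_iff_isRoot.mpr hy
    have hQ0 : Q ≠ 0 := by rintro rfl; simp at hP0
    have hQ : Q.natDegree = n := by
      rw [natDegree_mul (X_sub_C_ne_zero y) hQ0, natDegree_X_sub_C] at hP
      omega
    have hy' : ρ ≤ V.valuation y := hr y hy
    have IH := ih Q hQ (fun z hz => hr z (by
      rw [IsRoot.def, eval_mul, hz.eq_zero, mul_zero]))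
    have e0 : ((X - C y) * Q).coeff 0 = - (y * Q.coeff 0) := by
      simp
    rw [e0, Valuation.map_neg, map_mul]
    cases k with
    | zero => simp [e0]
    | succ k =>
      have ek : ((X - C y) * Q).coeff (k + 1) = Q.coeff k - y * Q.coeff (k + 1) := by
        rw [sub_mul, coeff_sub, coeff_X_mul, coeff_C_mul]
      rw [ek]
      have h1 : V.valuation (Q.coeff k) * ρ ^ (k + 1) ≤ V.valuation y * V.valuation (Q.coeff 0) := by
        calc V.valuation (Q.coeff k) * ρ ^ (k + 1) = ρ * (V.valuation (Q.coeff k) * ρ ^ k) := by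
              rw [pow_succ]; ac_rfl
          _ ≤ V.valuation y * V.valuation (Q.coeff 0) := by
              gcongr
              exact IH k
      have h2 : V.valuation (y * Q.coeff (k + 1)) * ρ ^ (k + 1) ≤
          V.valuation y * V.valuation (Q.coeff 0) := by
        rw [map_mul, mul_assoc]
        gcongr
        exact IH (k + 1)
      have h3 := Valuation.map_sub V.valuation (Q.coeff k) (y * Q.coeff (k + 1))
      rcases le_max_iff.mp h3 with h4 | h4
      · exact (mul_le_mul_left h4 _).trans h1
      · exact (mul_le_mul_left h4 _).trans h2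

/-- existence of a small root -/
theorem exists_small_root [IsAlgClosed L] {ρ : V.ValueGroup} (P : L[X]) (k : ℕ)
    (h : V.valuation (P.coeff 0) < V.valuation (P.coeff k) * ρ ^ k) :
    ∃ y, P.IsRoot y ∧ V.valuation y < ρ := by
  by_contra hcon
  push Not at hcon
  exact absurd (root_bound V _ P rfl hcon k) (not_le.mpr h)

end Pool.Agent.H81.RS
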