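import Pool.Agent.H81.RS.Main

namespace Pool.Agent.H81.RS

open Polynomial

universe u v

variable {K : Type u} [Field K]

/-- fractions with poles only along `C` -/
theorem exists_noPole {F : Type v} [Field F] [Algebra K F] [Algebra K[X][X] F]
    [IsScalarTower K K[X][X] F] [IsFractionRing K[X][X] F] (S : Conf K) {N : K[X][X]} {k : ℕ}
    (hN : Good S N k 0) (hne : ∀ a : K, N ≠ C (C a) * S.c ^ k) :
    ∃ p : reg S F, NoPole S (p : F) ∧ NonConst K p := by
  have hinj : Function.Injective (algebraMap K[X][X] F) := IsFractionRing.injective _ _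
  have hc0 : algebraMap K[X][X] F S.c ≠ 0 := by
    intro h
    rw [← map_zero (algebraMap K[X][X] F)] at h
    exact c_ne_zero S (hinj h)
  have hf' : (algebraMap K[X][X] F N / algebraMap K[X][X] F S.c ^ k) *
      algebraMap K[X][X] F (S.c ^ k) = algebraMap K[X][X] F N := by
    rw [map_pow, div_mul_cancel₀ _ (pow_ne_zero _ hc0)]
  refine ⟨⟨algebraMap K[X][X] F N / algebraMap K[X][X] F S.c ^ k, N, k, 0, hN, ?_⟩,
    ⟨N, k, hN, hf'⟩, ?_⟩
  · rw [pow_zero, mul_one]; exact hf'
  · intro a ha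
    apply hne a
    apply hinj
    have h1 : algebraMap K[X][X] F N / algebraMap K[X][X] F S.c ^ k = algebraMap K F a :=
      congrArg Subtype.val ha
    rw [map_mul, ← hf', h1, IsScalarTower.algebraMap_apply K K[X][X] F]
    rfl

theorem exists_noPole_pos {F : Type v} [Field F] [Algebra K F] [Algebra K[X][X] F]
    [IsScalarTower K K[X][X] F] [IsFractionRing K[X][X] F] (S : Conf K)
    (h : 3 * S.μ * S.a ≤ S.m * S.b) :
    ∃ p : reg S F, NoPole S (p : F) ∧ NonConst K p := by
  apply exists_noPole S (N := cub K ^ S.m) (k := 3)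
  · refine ⟨?_, ?_⟩
    · exact (DegLE_cub.pow S.m).mono (by omega)
    · exact (OrdGE_cub.pow S.m).mono (by nlinarith)
  · intro a ha
    have h1 := congrArg res ha
    rw [map_pow, res_cub, zero_pow S.m_pos.ne', map_mul, map_pow, res_C] at h1
    have h2 := (mul_eq_zero.mp h1.symm).resolve_right (pow_ne_zero _ (res_c_ne_zero S))
    rw [h2, map_zero, zero_mul] at ha
    exact pow_ne_zero _ cub_ne_zero ha

theorem exists_noPole_neg [CharZero K] {F : Type v} [Field F] [Algebra K F] [Algebra K[X][X] F]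
    [IsScalarTower K K[X][X] F] [IsFractionRing K[X][X] F] (S : Conf K) {δ : ℕ}
    (h : S.m * S.b + δ = 3 * S.μ * S.a) (hδa : δ ≤ S.a) (hδb : δ ≤ S.b)
    (hb : S.b + δ ≤ 9 * S.a) :
    ∃ p : reg S F, NoPole S (p : F) ∧ NonConst K p := by
  have hμ := S.μ_lt
  have hd : ((X - C S.Q) ^ (3 * S.μ) : K[X]).natDegree = 3 * S.μ := by
    rw [(monic_X_sub_C _).natDegree_pow, natDegree_X_sub_C, mul_one]
  obtain ⟨N, hF1, hF2, hF3⟩ := lift (K := K) (a := S.a) (b := S.b) S.Q_ne (δ := δ) hδa hδb hb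
    (l := S.m) S.m_pos (P := (X - C S.Q) ^ (3 * S.μ)) (by rw [hd]; omega)
    (coeff_eq_zero_of_natDegree_lt (by rw [hd]; omega)) (k := 3 * S.μ) dvd_rfl
    (by rw [mul_comm S.b S.m, h]; exact le_of_eq (by ring))
  apply exists_noPole S (N := N) (k := 3)
  · refine ⟨hF1.mono (by omega), hF3.mono ?_⟩
    rw [mul_comm S.b S.m, h]
    exact le_of_eq (by ring)
  · intro a ha
    have h1 := congrArg res ha
    rw [hF2, map_mul, map_pow, res_C] at h1
    have h2 := congrArg natDegree h1
    rw [hd] at h2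
    by_cases ha0 : a = 0
    · rw [ha0, map_zero, zero_mul, natDegree_zero] at h2
      have := S.μ_pos
      omega
    · rw [natDegree_C_mul ha0, natDegree_pow, natDegree_res_c] at h2
      omega

/-- existence of configurations -/
theorem exists_conf [CharZero K] (m μ a b : ℕ) (hμ : 0 < μ) (hm : μ < 3 * m) (ha : 0 < a)
    (hb : μ * a ≤ b) : ∃ S : Conf K, S.m = m ∧ S.μ = μ ∧ S.a = a ∧ S.b = b := by
  obtain ⟨n, hn⟩ : ∃ n, 3 * m = n + μ := ⟨3 * m - μ, by omega⟩
  have hn0 : 0 < n := by omega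
  set R : K[X] := (X - C (μ : K)) ^ n * (X - C (-(n : K))) ^ μ with hR
  obtain ⟨h1, h2, h3⟩ := two_factor (s := (μ : K)) (s' := -(n : K)) n μ
  rw [← hR] at h1 h2 h3
  have hR1 : R.coeff (3 * m - 1) = 0 := by
    rw [hn, ← h2, ← nextCoeff_of_natDegree_pos (by omega), h3]
    ring
  obtain ⟨c, hc1, hc2⟩ := exists_res (K := K) (D := m) (P := R) (by rw [h2, hn]) hR1
  have hc2' : c.eval (X ^ 3) = R := by
    rw [← hc2, res, coe_evalRingHom]
  refine ⟨⟨m, μ, a, b, (μ : K), -(n : K), 1, c, hμ, hm, ha, ?_, ?_, one_ne_zero, hc1, ?_, ?_⟩,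
    rfl, rfl, rfl, rfl⟩
  · have : 1 * 1 ≤ μ * a := Nat.mul_le_mul hμ ha
    omega
  · intro h
    have h5 : ((μ + n : ℕ) : K) = 0 := by push_cast; linear_combination h
    have h6 : μ + n = 0 := by exact_mod_cast h5
    omega
  · intro i j hij
    rcases j with _ | j
    · rw [cf, sh_coeff_zero, hc2, hR] at hij
      have h6 : ((X - C (μ : K)) ^ n * (X - C (-(n : K))) ^ μ).comp (X + C (-(n : K))) =
          X ^ μ * ((X - C (μ : K)) ^ n).comp (X + C (-(n : K))) := by
        rw [mul_comp, pow_comp (X - C (-(n : K)))]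
        simp only [sub_comp, X_comp, C_comp]
        ring
      rw [h6, coeff_X_pow_mul'] at hij
      split_ifs at hij with h7
      · nlinarith
      · exact absurd rfl hij
    · nlinarith [Nat.zero_le (a * i), Nat.zero_le (b * j)]
  · rw [hc2', hR, map_one, one_mul, show 3 * m - μ = n by omega]

end Pool.Agent.H81.RS
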