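import Pool.Agent.H81.RS.Steps

namespace Pool.Agent.H81.RS

open Polynomial

universe u v

variable {K : Type u} [Field K]

/-- a polynomial with at most two roots -/
theorem eq_two_factor [IsAlgClosed K] {R : K[X]} (hR : R ≠ 0) {s s' : K} (hss : s ≠ s')
    (h : ∀ r, R.eval r = 0 → r = s ∨ r = s') :
    ∃ (c : K) (A B : ℕ), c ≠ 0 ∧ R = C c * ((X - C s) ^ B * (X - C s') ^ A) := by
  obtain ⟨R1, hR1, hd1⟩ := exists_eq_pow_rootMultiplicity_mul_and_not_dvd R hR s
  have hR10 : R1 ≠ 0 := by rintro rfl; exact hd1 (dvd_zero _)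
  obtain ⟨R2, hR2, hd2⟩ := exists_eq_pow_rootMultiplicity_mul_and_not_dvd R1 hR10 s'
  have hR20 : R2 ≠ 0 := by rintro rfl; exact hd2 (dvd_zero _)
  have hdeg : R2.degree = 0 := by
    by_contra hne
    obtain ⟨r, hr⟩ := IsAlgClosed.exists_root R2 hne
    have h1 : R.eval r = 0 := by
      rw [hR1, hR2, eval_mul, eval_mul, hr.eq_zero, mul_zero, mul_zero]
    rcases h r h1 with rfl | rfl
    · apply hd1
      rw [hR2]
      exact Dvd.dvd.mul_left (dvd_iff_isRoot.mpr hr) _
    · exact hd2 (dvd_iff_isRoot.mpr hr)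
  have hC := eq_C_of_degree_eq_zero hdeg
  refine ⟨R2.coeff 0, R1.rootMultiplicity s', R.rootMultiplicity s, ?_, ?_⟩
  · intro h0
    rw [h0, map_zero] at hC
    exact hR20 hC
  · rw [← hC]
    conv_lhs => rw [hR1, hR2]
    ring

theorem degLE_of_cub_mul {D : ℕ} {G : K[X][X]} (h : DegLE (cub K * G) (D + 3)) : DegLE G D := by
  have key : ∀ j i, D < i + j → cf G i j = 0 := by
    intro j
    induction j with
    | zero =>
      intro i hi
      have h1 : cf (cub K * G) (i + 3) 0 = - cf G i 0 := by
        rw [cub, sub_mul, cf_sub, cf_X_mul_zero, zero_sub, cf, coeff_C_mul, coeff_X_pow_mul, cf]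
      by_contra hne
      have := h (i + 3) 0 (by rw [h1]; exact neg_ne_zero.mpr hne)
      omega
    | succ j ih =>
      intro i hi
      have h1 : cf (cub K * G) (i + 3) (j + 1) = cf G (i + 3) j - cf G i (j + 1) := by
        rw [cub, sub_mul, cf_sub, cf_X_mul_succ]
        congr 1
        rw [cf, coeff_C_mul, coeff_X_pow_mul, cf]
      rw [ih (i + 3) (by omega), zero_sub] at h1
      by_contra hne
      have := h (i + 3) (j + 1) (by rw [h1]; exact neg_ne_zero.mpr hne)
      omega
  intro i j hij
  by_contra hlt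
  exact hij (key j i (by omega))

theorem ordGE_of_cub_mul {s : K} {a b W : ℕ} {G : K[X][X]}
    (h : OrdGE s a b (W + b) (cub K * G)) : OrdGE s a b W G := by
  intro i j hij
  have := h i (j + 1) (by rw [map_mul, sh_cub, cf_X_mul_succ]; exact hij)
  rw [Nat.mul_succ] at this
  omega

theorem good_of_cub_mul {S : Conf K} {G : K[X][X]} {e l : ℕ} (h : Good S (cub K * G) e (l + 1)) :
    Good S G e l := by
  refine ⟨degLE_of_cub_mul ?_, ordGE_of_cub_mul ?_⟩
  · have := h.1
    rw [show S.m * e + 3 * (l + 1) = S.m * e + 3 * l + 3 by ring] at this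
    exact this
  · have := h.2
    rw [show S.μ * S.a * e + S.b * (l + 1) = S.μ * S.a * e + S.b * l + S.b by ring] at this
    exact this

variable {L : Type v} [Field L] [Algebra K L]

variable {V : ValuationSubring L} {S : Conf K} {h : K[X][X]} {k e1 : ℕ}

variable [CharZero K] [IsAlgClosed K] [IsAlgClosed L]

/-- the contradiction -/
theorem final (hb : S.b + 1 ≤ 9 * S.a) (hne : S.m * S.b ≠ 3 * S.μ * S.a)
    (hK : ∀ a : K, V.valuation (algebraMap K L a) ≤ 1)
    {t : L} (ht0 : t ≠ 0) (ht : V.valuation t < 1) (hh : Good S h k 0) :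
    ∀ (e2 : ℕ) (F : K[X][X]), Good S F e1 e2 → ¬ Tst V S h k F e1 e2 := by
  intro e2
  induction e2 with
  | zero => intro F _ hT; exact step_one hb hK ht0 ht hT
  | succ e2 ih =>
    intro F hF hT
    by_cases hres : res F = 0
    · obtain ⟨G, hG⟩ := cub_dvd F
      rw [hres, map_zero, zero_add] at hG
      subst hG
      apply ih G (good_of_cub_mul hF)
      intro x y hc hg hh' hG' f l hf
      apply hT x y hc hg hh' _ f l hf
      rw [map_mul, map_mul, pow_succ, ← mul_assoc, mul_comm]
      gcongr
    · have hroots : ∀ r, (res F).eval r = 0 → r = S.P ∨ r = S.Q := by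
        intro r hr
        by_contra hcon
        rw [not_or] at hcon
        exact step_two hb hK ht0 ht hT hres hcon.1 hcon.2 hr
      obtain ⟨c, A, B, hc, hR⟩ := eq_two_factor hres S.P_ne hroots
      have hQ := step_Q hb hK ht0 ht hT hh hF.2 (Nat.succ_pos e2) (A := A)
        (R := C c * (X - C S.P) ^ B) (by rw [hR]; ring) (by
          simp only [eval_mul, eval_C, eval_pow, eval_sub, eval_X]
          exact mul_ne_zero hc (pow_ne_zero _ (sub_ne_zero.mpr S.P_ne.symm)))
      have hC := step_C hb hK ht0 ht hT hh hF.1 hres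
      have hD0 : 0 < S.m * e1 + 3 * (e2 + 1) := by omega
      have h1 := coeff_res_pred hD0 hF.1
      have h2 := natDegree_res_le hF.1
      rw [← coeff_res_top hF.1] at hC
      set D := S.m * e1 + 3 * (e2 + 1) with hD
      obtain ⟨t1, t2, t3⟩ := two_factor (s := S.P) (s' := S.Q) B A
      have hdeg : (res F).natDegree = 3 * D :=
        le_antisymm h2 (le_natDegree_of_ne_zero hC)
      have hdeg' : B + A = 3 * D := by
        rw [← hdeg, hR, natDegree_C_mul hc, t2]
      rw [nextCoeff_of_natDegree_pos (by omega), t2, hdeg'] at t3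
      rw [hR, coeff_C_mul, mul_eq_zero, or_iff_right hc] at h1
      rw [h1] at t3
      have h3 := S.sum_zero
      rw [Nat.cast_sub S.μ_lt.le] at h3
      have h4 : ((S.m * A : ℕ) : K) = ((D * S.μ : ℕ) : K) := by
        have h5 : (B : K) = 3 * D - A := by
          have : ((B + A : ℕ) : K) = ((3 * D : ℕ) : K) := by rw [hdeg']
          push_cast at this
          linear_combination this
        rw [h5] at t3
        have h6 : (S.Q - S.P) ≠ 0 := sub_ne_zero.mpr S.P_ne.symm
        apply mul_right_cancel₀ h6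
        push_cast at h3 ⊢
        linear_combination (S.m : K) * t3 - (D : K) * h3
      have h7 : S.m * A = D * S.μ := by exact_mod_cast h4
      apply hne
      have h8 : S.m * (S.a * A) = S.m * (S.μ * S.a * e1 + S.b * (e2 + 1)) := by rw [hQ]
      have h9 : S.m * (S.a * A) = S.a * (D * S.μ) := by rw [← h7]; ring
      rw [h9, hD] at h8
      have h10 : S.m * S.b * (e2 + 1) = 3 * S.μ * S.a * (e2 + 1) := by
        nlinarith
      exact Nat.eq_of_mul_eq_mul_right (Nat.succ_pos e2) h10

end Pool.Agent.H81.RS
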