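import Pool.Agent.H81.RS.Defs

namespace Pool.Agent.H81.RS

open Polynomial

universe u

variable {K : Type u} [Field K]

theorem cf_add (F G : K[X][X]) (i j : ℕ) : cf (F + G) i j = cf F i j + cf G i j := by
  simp [cf]

theorem cf_sub (F G : K[X][X]) (i j : ℕ) : cf (F - G) i j = cf F i j - cf G i j := by
  simp [cf]

theorem cf_neg (F : K[X][X]) (i j : ℕ) : cf (-F) i j = -cf F i j := by
  simp [cf]

theorem cf_C (P : K[X]) (i j : ℕ) : cf (C P) i j = if j = 0 then P.coeff i else 0 := by
  simp only [cf, coeff_C]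
  split_ifs <;> simp

theorem cf_mul_ne {F G : K[X][X]} {i j : ℕ} (h : cf (F * G) i j ≠ 0) :
    ∃ i1 j1 i2 j2, i1 + i2 = i ∧ j1 + j2 = j ∧ cf F i1 j1 ≠ 0 ∧ cf G i2 j2 ≠ 0 := by
  rw [cf, coeff_mul, finsetSum_coeff] at h
  obtain ⟨⟨j1, j2⟩, hj, h1⟩ := Finset.exists_ne_zero_of_sum_ne_zero h
  rw [coeff_mul] at h1
  obtain ⟨⟨i1, i2⟩, hi, h2⟩ := Finset.exists_ne_zero_of_sum_ne_zero h1
  have hi := Finset.HasAntidiagonal.mem_antidiagonal.mp hi
  have hj := Finset.HasAntidiagonal.mem_antidiagonal.mp hj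
  exact ⟨i1, j1, i2, j2, hi, hj, left_ne_zero_of_mul h2, right_ne_zero_of_mul h2⟩

theorem cf_X_mul_succ (F : K[X][X]) (i j : ℕ) : cf (X * F) i (j + 1) = cf F i j := by
  simp [cf, coeff_X_mul]

theorem cf_X_mul_zero (F : K[X][X]) (i : ℕ) : cf (X * F) i 0 = 0 := by
  simp [cf]

theorem eq_zero_of_cf {F : K[X][X]} (h : ∀ i j, cf F i j = 0) : F = 0 := by
  ext j i
  exact h i j

/-! ### degree -/

theorem DegLE.mono {F : K[X][X]} {D E : ℕ} (h : DegLE F D) (hDE : D ≤ E) : DegLE F E :=
  fun i j hij => (h i j hij).trans hDE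

theorem DegLE.add {F G : K[X][X]} {D : ℕ} (hF : DegLE F D) (hG : DegLE G D) :
    DegLE (F + G) D := by
  intro i j hij
  rw [cf_add] at hij
  by_cases h : cf F i j = 0
  · rw [h, zero_add] at hij; exact hG i j hij
  · exact hF i j h

theorem DegLE.neg {F : K[X][X]} {D : ℕ} (hF : DegLE F D) : DegLE (-F) D := by
  intro i j hij
  rw [cf_neg, neg_ne_zero] at hij
  exact hF i j hij

theorem DegLE.mul {F G : K[X][X]} {D E : ℕ} (hF : DegLE F D) (hG : DegLE G E) :
    DegLE (F * G) (D + E) := by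
  intro i j hij
  obtain ⟨i1, j1, i2, j2, rfl, rfl, h1, h2⟩ := cf_mul_ne hij
  have := hF i1 j1 h1
  have := hG i2 j2 h2
  omega

theorem DegLE.C {P : K[X]} {D : ℕ} (h : P.natDegree ≤ D) : DegLE (Polynomial.C P) D := by
  intro i j hij
  rw [cf_C] at hij
  split_ifs at hij with hj
  · have := le_natDegree_of_ne_zero hij
    omega
  · exact absurd rfl hij

theorem DegLE.X : DegLE (Polynomial.X : K[X][X]) 1 := by
  intro i j hij
  by_contra h
  push Not at h
  apply hij
  rw [cf, coeff_X]
  split_ifs with h1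
  · rw [coeff_one, if_neg (by omega)]
  · simp

theorem DegLE.one : DegLE (1 : K[X][X]) 0 := by
  have := DegLE.C (K := K) (P := 1) (D := 0) (by simp)
  rwa [map_one] at this

theorem DegLE.pow {F : K[X][X]} {D : ℕ} (hF : DegLE F D) (n : ℕ) : DegLE (F ^ n) (D * n) := by
  induction n with
  | zero => rw [pow_zero, mul_zero]; exact DegLE.one
  | succ n ih => rw [pow_succ, Nat.mul_succ]; exact ih.mul hF

theorem DegLE.sum {ι : Type*} {s : Finset ι} {f : ι → K[X][X]} {D : ℕ}
    (h : ∀ k ∈ s, DegLE (f k) D) : DegLE (∑ k ∈ s, f k) D := by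
  classical
  induction s using Finset.induction_on with
  | empty => intro i j hij; simp [cf] at hij
  | insert a s ha ih =>
    rw [Finset.sum_insert ha]
    exact (h a (Finset.mem_insert_self a s)).add
      (ih (fun k hk => h k (Finset.mem_insert_of_mem hk)))

theorem DegLE_cub : DegLE (cub K) 3 := by
  rw [cub, sub_eq_add_neg]
  refine (DegLE.X.mono (by norm_num)).add (DegLE.neg (DegLE.C ?_))
  simp

/-! ### the shift -/

theorem sh_C (s : K) (P : K[X]) : sh s (C P) = C (P.comp (X + C s)) := by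
  simp [sh]

theorem sh_X (s : K) : sh s (X : K[X][X]) = X + C ((X + C s) ^ 3) := by
  simp [sh]

theorem sh_cub (s : K) : sh s (cub K) = X := by
  rw [cub, map_sub, sh_X, sh_C]
  simp

/-- restriction to the cubic -/
noncomputable def res : K[X][X] →+* K[X] := evalRingHom (X ^ 3)

@[simp] theorem res_C (P : K[X]) : res (C P) = P := by simp [res]

@[simp] theorem res_X : res (X : K[X][X]) = X ^ 3 := by simp [res]

@[simp] theorem res_cub : res (cub K) = 0 := by simp [cub]

theorem sh_coeff_zero (s : K) (F : K[X][X]) : (sh s F).coeff 0 = (res F).comp (X + C s) := by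
  induction F using Polynomial.induction_on' with
  | add p q hp hq => simp [hp, hq, add_comp]
  | monomial n a =>
    rw [← C_mul_X_pow_eq_monomial, map_mul (sh s), map_pow (sh s), sh_C, sh_X, map_mul res,
      map_pow res, res_C, res_X, mul_comp, pow_comp, pow_comp, X_comp, mul_coeff_zero,
      coeff_C_zero]
    congr 1
    rw [coeff_zero_eq_eval_zero]
    simp

theorem cub_dvd (F : K[X][X]) : ∃ G : K[X][X], F = C (res F) + cub K * G := by
  obtain ⟨G, hG⟩ := X_sub_C_dvd_sub_C_eval (a := (X ^ 3 : K[X])) (p := F)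
  refine ⟨G, ?_⟩
  rw [cub, ← hG]
  simp [res]

/-! ### weighted order -/

variable {s : K} {a b : ℕ}

theorem OrdGE.mono {W W' : ℕ} {F : K[X][X]} (h : OrdGE s a b W F) (hW : W' ≤ W) :
    OrdGE s a b W' F := fun i j hij => hW.trans (h i j hij)

theorem OrdGE.add {W : ℕ} {F G : K[X][X]} (hF : OrdGE s a b W F) (hG : OrdGE s a b W G) :
    OrdGE s a b W (F + G) := by
  intro i j hij
  rw [map_add, cf_add] at hij
  by_cases h : cf (sh s F) i j = 0
  · rw [h, zero_add] at hij; exact hG i j hij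
  · exact hF i j h

theorem OrdGE.neg {W : ℕ} {F : K[X][X]} (hF : OrdGE s a b W F) : OrdGE s a b W (-F) := by
  intro i j hij
  rw [map_neg, cf_neg, neg_ne_zero] at hij
  exact hF i j hij

theorem OrdGE.mul {W W' : ℕ} {F G : K[X][X]} (hF : OrdGE s a b W F) (hG : OrdGE s a b W' G) :
    OrdGE s a b (W + W') (F * G) := by
  intro i j hij
  rw [map_mul] at hij
  obtain ⟨i1, j1, i2, j2, rfl, rfl, h1, h2⟩ := cf_mul_ne hij
  have := hF i1 j1 h1
  have := hG i2 j2 h2
  nlinarith

theorem OrdGE.zero (F : K[X][X]) : OrdGE s a b 0 F := fun _ _ _ => Nat.zero_le _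

theorem OrdGE.pow {W : ℕ} {F : K[X][X]} (hF : OrdGE s a b W F) (n : ℕ) :
    OrdGE s a b (W * n) (F ^ n) := by
  induction n with
  | zero => exact OrdGE.zero _
  | succ n ih => rw [pow_succ, Nat.mul_succ]; exact ih.mul hF

theorem OrdGE_cub : OrdGE s a b b (cub K) := by
  intro i j hij
  rw [sh_cub] at hij
  rcases j with _ | j
  · simp [cf] at hij
  · nlinarith [Nat.zero_le (a * i), Nat.zero_le (b * j)]

theorem OrdGE_C {P : K[X]} {k W : ℕ} (h : (X - C s) ^ k ∣ P) (hW : W ≤ a * k) :
    OrdGE s a b W (C P) := by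
  intro i j hij
  rw [sh_C, cf_C] at hij
  split_ifs at hij with hj
  · obtain ⟨Q, rfl⟩ := h
    have e : ((X - C s) ^ k * Q).comp (X + C s) = X ^ k * Q.comp (X + C s) := by
      simp [mul_comp]
    rw [e] at hij
    have hk : k ≤ i := by
      by_contra hlt
      apply hij
      rw [coeff_X_pow_mul', if_neg hlt]
    calc W ≤ a * k := hW
      _ ≤ a * i := Nat.mul_le_mul_left a hk
      _ ≤ _ := Nat.le_add_right _ _
  · exact absurd rfl hij

/-! ### restriction of polynomials of bounded degree to the cubic -/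

theorem exists_res {D : ℕ} {P : K[X]} (hP : P.natDegree ≤ 3 * D) (hc : P.coeff (3 * D - 1) = 0) :
    ∃ F : K[X][X], DegLE F D ∧ res F = P := by
  refine ⟨∑ e ∈ Finset.range (3 * D + 1), C (C (P.coeff e) * X ^ (e % 3)) * X ^ (e / 3), ?_, ?_⟩
  · apply DegLE.sum
    intro e he
    rw [Finset.mem_range] at he
    by_cases hce : P.coeff e = 0
    · rw [hce]
      intro i j hij
      simp [cf] at hij
    · have he1 : e ≠ 3 * D - 1 ∨ D = 0 := by
        by_contra hcon
        push Not at hcon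
        exact hce (hcon.1 ▸ hc)
      have h1 : DegLE (C (C (P.coeff e) * X ^ (e % 3)) : K[X][X]) (e % 3) := by
        apply DegLE.C
        exact natDegree_C_mul_X_pow_le _ _
      have h2 := h1.mul ((DegLE.X (K := K)).pow (e / 3))
      apply h2.mono
      omega
  · rw [map_sum]
    conv_rhs => rw [P.as_sum_range' (3 * D + 1) (by omega)]
    apply Finset.sum_congr rfl
    intro e _
    rw [map_mul, map_pow, res_C, res_X, ← pow_mul, mul_assoc, ← pow_add, Nat.mod_add_div,
      C_mul_X_pow_eq_monomial]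

theorem coeff_res_of_lt {D : ℕ} {F : K[X][X]} (hF : DegLE F D) {e : ℕ} (he : 3 * D < e) :
    (res F).coeff e = 0 := by
  have e1 : res F = ∑ j ∈ Finset.range (F.natDegree + 1), F.coeff j * X ^ (3 * j) := by
    rw [res, coe_evalRingHom, eval_eq_sum_range]
    apply Finset.sum_congr rfl
    intro j _
    rw [← pow_mul]
  rw [e1, finsetSum_coeff]
  apply Finset.sum_eq_zero
  intro j _
  rw [coeff_mul_X_pow']
  split_ifs with h
  · by_contra hne
    have := hF (e - 3 * j) j hne
    omega
  · rfl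

theorem coeff_res_pred {D : ℕ} (hD : 0 < D) {F : K[X][X]} (hF : DegLE F D) :
    (res F).coeff (3 * D - 1) = 0 := by
  have e1 : res F = ∑ j ∈ Finset.range (F.natDegree + 1), F.coeff j * X ^ (3 * j) := by
    rw [res, coe_evalRingHom, eval_eq_sum_range]
    apply Finset.sum_congr rfl
    intro j _
    rw [← pow_mul]
  rw [e1, finsetSum_coeff]
  apply Finset.sum_eq_zero
  intro j _
  rw [coeff_mul_X_pow']
  split_ifs with h
  · by_contra hne
    have := hF (3 * D - 1 - 3 * j) j hne
    omega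
  · rfl

theorem natDegree_res_le {D : ℕ} {F : K[X][X]} (hF : DegLE F D) : (res F).natDegree ≤ 3 * D := by
  rw [natDegree_le_iff_coeff_eq_zero]
  intro e he
  exact coeff_res_of_lt hF he

theorem nextCoeff_X_sub_C_pow (s : K) (n : ℕ) : ((X - C s) ^ n).nextCoeff = -(n : K) * s := by
  induction n with
  | zero => simp [nextCoeff]
  | succ n ih =>
    rw [pow_succ, ((monic_X_sub_C s).pow n).nextCoeff_mul (monic_X_sub_C s), ih,
      nextCoeff_X_sub_C]
    push_cast
    ring

/-- polynomials of degree at most `9 l` without the term of degree `9 l - 1` represent all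
classes modulo `(X - s) ^ (9 l)` -/
theorem exists_mod [CharZero K] (hs : s ≠ 0) {l : ℕ} (hl : 0 < l) (T : K[X]) :
    ∃ P : K[X], P.natDegree ≤ 9 * l ∧ P.coeff (9 * l - 1) = 0 ∧ (X - C s) ^ (9 * l) ∣ P - T := by
  set M : K[X] := (X - C s) ^ (9 * l) with hM
  have hMm : M.Monic := (monic_X_sub_C s).pow _
  have hMd : M.natDegree = 9 * l := by
    rw [hM, (monic_X_sub_C s).natDegree_pow, natDegree_X_sub_C, mul_one]
  have hMc : M.coeff (9 * l - 1) = -((9 * l : ℕ) : K) * s := by
    rw [← hMd, ← nextCoeff_of_natDegree_pos (by omega), hM, nextCoeff_X_sub_C_pow, ← hM, hMd]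
  set R : K[X] := T %ₘ M with hR
  have hRd : R.degree < M.degree := degree_modByMonic_lt T hMm
  set lam : K := R.coeff (9 * l - 1) / (((9 * l : ℕ) : K) * s) with hlam
  have hne : ((9 * l : ℕ) : K) * s ≠ 0 := by
    apply mul_ne_zero _ hs
    exact_mod_cast (show 9 * l ≠ 0 by omega)
  refine ⟨R + C lam * M, ?_, ?_, ?_⟩
  · refine (natDegree_add_le _ _).trans (max_le ?_ ?_)
    · rw [← hMd]
      exact natDegree_le_natDegree hRd.le
    · exact (natDegree_C_mul_le _ _).trans hMd.le
  · rw [coeff_add, coeff_C_mul, hMc, hlam]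
    rw [neg_mul, mul_neg, div_mul_cancel₀ _ hne, add_neg_cancel]
  · have h1 : R = T - M * (T /ₘ M) := by
      have := modByMonic_add_div T M
      rw [hR]; linear_combination this
    rw [h1]
    exact ⟨C lam - T /ₘ M, by ring⟩

/-- approximation of arbitrary polynomials by polynomials of bounded degree -/
theorem approx [CharZero K] (hs : s ≠ 0) {δ : ℕ} (hδa : δ ≤ a) (hδb : δ ≤ b)
    (hbδ : b + δ ≤ 9 * a) :
    ∀ (l : ℕ) (F : K[X][X]), ∃ H : K[X][X], DegLE H (3 * l) ∧ OrdGE s a b (b * l + δ) (H - F) := by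
  intro l
  induction l with
  | zero =>
    intro F
    refine ⟨C (C ((res F).eval s)), DegLE.C (by simp), ?_⟩
    intro i j hij
    rw [mul_zero, zero_add]
    rcases i with _ | i
    · rcases j with _ | j
      · exfalso
        apply hij
        rw [cf, sh_coeff_zero]
        simp [coeff_zero_eq_eval_zero, eval_comp]
      · nlinarith [Nat.zero_le (b * j)]
    · nlinarith [Nat.zero_le (a * i), Nat.zero_le (b * j)]
  | succ l ih =>
    intro F
    obtain ⟨P, hP1, hP2, hP3⟩ := exists_mod hs (Nat.succ_pos l) (res F)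
    obtain ⟨f, hf1, hf2⟩ := exists_res (K := K) (D := 3 * (l + 1)) (P := P)
      (by rw [← mul_assoc]; exact hP1) (by rw [← mul_assoc]; exact hP2)
    obtain ⟨G, hG⟩ := cub_dvd (F - f)
    obtain ⟨H, hH1, hH2⟩ := ih G
    refine ⟨f + cub K * H, ?_, ?_⟩
    · apply hf1.add
      have := DegLE_cub.mul hH1
      exact this.mono (by omega)
    · have e : f + cub K * H - F = C (P - res F) + cub K * (H - G) := by
        have h1 : F = f + (C (res (F - f)) + cub K * G) := by rw [← hG]; ring
        have h2 : res (F - f) = res F - P := by rw [map_sub, hf2]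
        rw [h2] at h1
        conv_lhs => rw [h1]
        simp only [map_sub]
        ring
      rw [e]
      apply OrdGE.add
      · apply OrdGE_C hP3
        nlinarith
      · have := (OrdGE_cub (s := s) (a := a) (b := b)).mul hH2
        exact this.mono (by rw [Nat.mul_succ]; omega)

/-- polynomials with prescribed restriction to the cubic and large weighted order -/
theorem lift [CharZero K] (hs : s ≠ 0) {δ : ℕ} (hδa : δ ≤ a) (hδb : δ ≤ b)
    (hbδ : b + δ ≤ 9 * a) {l : ℕ} (hl : 0 < l) {P : K[X]} (hP : P.natDegree ≤ 9 * l)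
    (hc : P.coeff (9 * l - 1) = 0) {k : ℕ} (hk : (X - C s) ^ k ∣ P) (hW : b * l + δ ≤ a * k) :
    ∃ F : K[X][X], DegLE F (3 * l) ∧ res F = P ∧ OrdGE s a b (b * l + δ) F := by
  obtain ⟨f, hf1, hf2⟩ := exists_res (K := K) (D := 3 * l) (P := P)
      (by rw [← mul_assoc]; exact hP) (by rw [← mul_assoc]; exact hc)
  obtain ⟨G, hG⟩ := cub_dvd f
  obtain ⟨H, hH1, hH2⟩ := approx hs hδa hδb hbδ (l - 1) (-G)
  refine ⟨f + cub K * H, ?_, ?_, ?_⟩
  · apply hf1.add
    have := DegLE_cub.mul hH1
    exact this.mono (by omega)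
  · rw [map_add, map_mul, res_cub, zero_mul, add_zero, hf2]
  · have e : f + cub K * H = C P + cub K * (H - -G) := by
      conv_lhs => rw [hG, hf2]
      ring
    rw [e]
    apply OrdGE.add (OrdGE_C hk hW)
    have := (OrdGE_cub (s := s) (a := a) (b := b)).mul hH2
    apply this.mono
    obtain ⟨l', rfl⟩ : ∃ l', l = l' + 1 := ⟨l - 1, by omega⟩
    rw [Nat.add_sub_cancel, Nat.mul_succ]
    omega

end Pool.Agent.H81.RS
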