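import Pool.Agent.H81.RS.Lift

namespace Pool.Agent.H81.RS

open Polynomial

universe u v

variable {K : Type u} [Field K]

/-- The rational function `f` in `x`, `z` is a fraction `N / (c ^ i * (z - x ^ 3) ^ j)` whose
numerator `N` has total degree at most `m i + 3 j` and weighted order at least `μ a i + b j`
at the point `(Q, Q ^ 3)`. -/
def IsReg (S : Conf K) {F : Type v} [Field F] [Algebra K[X][X] F] (f : F) : Prop :=
  ∃ N i j, Good S N i j ∧
    f * algebraMap K[X][X] F (S.c ^ i * cub K ^ j) = algebraMap K[X][X] F N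

/-- As `IsReg`, but without pole along the cubic: `f = N / c ^ i`. -/
def NoPole (S : Conf K) {F : Type v} [Field F] [Algebra K[X][X] F] (f : F) : Prop :=
  ∃ N i, Good S N i 0 ∧ f * algebraMap K[X][X] F (S.c ^ i) = algebraMap K[X][X] F N

section

variable {S : Conf K} {F : Type v} [Field F] [Algebra K[X][X] F]

theorem IsReg.mul {f f' : F} (h : IsReg S f) (h' : IsReg S f') : IsReg S (f * f') := by
  obtain ⟨N, i, j, hN, hf⟩ := h
  obtain ⟨N', i', j', hN', hf'⟩ := h'
  refine ⟨N * N', i + i', j + j', ⟨?_, ?_⟩, ?_⟩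
  · have := hN.1.mul hN'.1
    exact this.mono (by ring_nf; rfl)
  · have := hN.2.mul hN'.2
    exact this.mono (by ring_nf; rfl)
  · rw [map_mul _ N N', ← hf, ← hf']
    simp only [map_mul, map_pow]
    ring

theorem IsReg.add {f f' : F} (h : IsReg S f) (h' : IsReg S f') : IsReg S (f + f') := by
  obtain ⟨N, i, j, hN, hf⟩ := h
  obtain ⟨N', i', j', hN', hf'⟩ := h'
  refine ⟨N * (S.c ^ i' * cub K ^ j') + N' * (S.c ^ i * cub K ^ j), i + i', j + j',
    ⟨?_, ?_⟩, ?_⟩
  · apply DegLE.add
    · have := hN.1.mul ((S.deg_c.pow i').mul (DegLE_cub.pow j'))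
      exact this.mono (by ring_nf; rfl)
    · have := hN'.1.mul ((S.deg_c.pow i).mul (DegLE_cub.pow j))
      exact this.mono (by ring_nf; rfl)
  · apply OrdGE.add
    · have := hN.2.mul ((S.ord_c.pow i').mul (OrdGE_cub.pow j'))
      exact this.mono (by ring_nf; rfl)
    · have := hN'.2.mul ((S.ord_c.pow i).mul (OrdGE_cub.pow j))
      exact this.mono (by ring_nf; rfl)
  · rw [map_add, map_mul _ N, map_mul _ N', ← hf, ← hf']
    simp only [map_mul, map_pow]
    ring

theorem isReg_algebraMap [Algebra K F] [IsScalarTower K K[X][X] F] (r : K) :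
    IsReg S (algebraMap K F r) := by
  refine ⟨C (C r), 0, 0, ⟨?_, ?_⟩, ?_⟩
  · exact (DegLE.C (by simp)).mono (Nat.zero_le _)
  · exact (OrdGE.zero _).mono (Nat.zero_le _)
  · rw [pow_zero, pow_zero, mul_one, map_one, mul_one]
    rw [IsScalarTower.algebraMap_apply K K[X][X] F]
    rfl

end

/-- The ring `O(X)` of the surface `X` attached to `S`. -/
noncomputable def reg (S : Conf K) (F : Type v) [Field F] [Algebra K F] [Algebra K[X][X] F]
    [IsScalarTower K K[X][X] F] : Subalgebra K F where
  carrier := {f | IsReg S f}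
  mul_mem' h h' := h.mul h'
  add_mem' h h' := h.add h'
  algebraMap_mem' r := isReg_algebraMap r

/-- The map `(p, q)` to the affine plane is proper: the ring is integral over the subring
generated by `p` and `q`. -/
def ProperPair (K : Type u) {R : Type v} [Field K] [CommRing R] [Algebra K R] (p q : R) : Prop :=
  ∀ r : R, IsIntegral (Algebra.adjoin K {p, q}) r

/-- `p` is not a constant. -/
def NonConst (K : Type u) {R : Type v} [Field K] [CommRing R] [Algebra K R] (p : R) : Prop :=
  ∀ a : K, p ≠ algebraMap K R a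

/-- Jelonek's property: every non-constant `p` has some `q` for which `(p, q)` is proper. -/
def PropertyP (K : Type u) (R : Type v) [Field K] [CommRing R] [Algebra K R] : Prop :=
  ∀ p : R, NonConst K p → ∃ q : R, ProperPair K p q

end Pool.Agent.H81.RS
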