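import Mathlib

namespace Pool.Agent.H81.RS

open Polynomial

universe u

/-- An algebraically closed extension with a valuation subring containing `K` and an element
`t` of positive value. -/
theorem exists_val (K : Type u) [Field K] :
    ∃ (L : Type u) (_ : Field L) (_ : Algebra K L) (_ : IsAlgClosed L)
      (V : ValuationSubring L) (t : L), t ≠ 0 ∧ V.valuation t < 1 ∧
      ∀ a : K, V.valuation (algebraMap K L a) ≤ 1 := by
  let L := AlgebraicClosure (RatFunc K)
  let t : L := algebraMap (RatFunc K) L RatFunc.X
  have ht : Transcendental K t := by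
    rw [transcendental_algebraMap_iff (algebraMap (RatFunc K) L).injective]
    exact RatFunc.transcendental_X
  have ht0 : t ≠ 0 := by
    rintro h
    rw [h] at ht
    exact ht isAlgebraic_zero
  let A : Subring L := (aeval (R := K) t).range.toSubring
  have htA : t ∈ A := ⟨X, by simp⟩
  let I : Ideal A := Ideal.span {⟨t, htA⟩}
  have hI : I ≠ ⊤ := by
    intro h
    rw [Ideal.eq_top_iff_one, Ideal.mem_span_singleton'] at h
    obtain ⟨⟨a, ha⟩, h1⟩ := h
    obtain ⟨P, rfl⟩ := ha
    have h2 : aeval t (P * X - 1 : K[X]) = 0 := by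
      have := congrArg (Subtype.val) h1
      simp only [Subring.coe_mul, Subring.coe_one] at this
      simp only [map_sub, map_mul, aeval_X, map_one]
      rw [sub_eq_zero]
      exact this
    have h3 := (transcendental_iff.mp ht) _ h2
    have h4 := congrArg (fun Q : K[X] => Q.coeff 0) h3
    simp at h4
  obtain ⟨V, hV1, hV2⟩ := Ideal.image_subset_nonunits_valuationSubring I hI
  refine ⟨L, inferInstance, inferInstance, inferInstance, V, t, ht0, ?_, ?_⟩
  · have : t ∈ V.nonunits := hV2 ⟨⟨t, htA⟩, Ideal.subset_span rfl, rfl⟩
    exact (V.mem_nonunits_iff).mp this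
  · intro a
    rw [ValuationSubring.valuation_le_one_iff]
    apply hV1
    exact ⟨C a, by simp⟩

end Pool.Agent.H81.RS
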