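import Pool.Agent.H81.RS.Fin
import Pool.Agent.H81.RS.Ring
import Pool.Agent.H81.RS.Val

namespace Pool.Agent.H81.RS

open Polynomial

universe u v w

variable {K : Type u} [Field K]

theorem natDegree_res_c (S : Conf K) : (res S.c).natDegree = 3 * S.m := by
  obtain ⟨h1, h2, _⟩ := two_factor (s := S.P) (s' := S.Q) (3 * S.m - S.μ) S.μ
  rw [S.res_c', natDegree_C_mul S.κ_ne, h2]
  have := S.μ_lt
  omega

theorem res_c_ne_zero (S : Conf K) : res S.c ≠ 0 := by
  intro h
  have h1 := natDegree_res_c S
  rw [h, natDegree_zero] at h1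
  have := S.m_pos
  omega

theorem c_ne_zero (S : Conf K) : S.c ≠ 0 := by
  intro h
  apply res_c_ne_zero S
  rw [h, map_zero]

theorem cub_ne_zero : cub K ≠ 0 := X_sub_C_ne_zero _

/-- evaluation of the regular functions at the points with coordinates in a field -/
theorem exists_hom {F : Type w} [Field F] [Algebra K F] [Algebra K[X][X] F]
    [IsScalarTower K K[X][X] F] [IsFractionRing K[X][X] F]
    {L : Type v} [Field L] [Algebra K L] (S : Conf K) {x y : L} (hc : ev x y S.c ≠ 0)
    (hg : ev x y (cub K) ≠ 0) :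
    ∃ Ψ : reg S F →+* L, ∀ (r : reg S F) (N : K[X][X]) (i j : ℕ),
      (r : F) * algebraMap K[X][X] F (S.c ^ i * cub K ^ j) = algebraMap K[X][X] F N →
      Ψ r * (ev x y S.c ^ i * ev x y (cub K) ^ j) = ev x y N := by
  have hcg : S.c * cub K ≠ 0 := mul_ne_zero (c_ne_zero S) cub_ne_zero
  have hinj : Function.Injective (algebraMap K[X][X] F) := IsFractionRing.injective _ _
  have hu : IsUnit (ev x y (S.c * cub K)) := by
    rw [map_mul]; exact (mul_ne_zero hc hg).isUnit
  have hu' : IsUnit (algebraMap K[X][X] F (S.c * cub K)) := by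
    rw [isUnit_iff_ne_zero]
    intro h
    rw [← map_zero (algebraMap K[X][X] F)] at h
    exact hcg (hinj h)
  let Φ : Localization.Away (S.c * cub K) →+* L := IsLocalization.Away.lift (S.c * cub K) hu
  have hΦ : ∀ G : K[X][X], Φ (algebraMap K[X][X] _ G) = ev x y G := fun G =>
    IsLocalization.Away.lift_eq _ hu G
  let ι : Localization.Away (S.c * cub K) →+* F := IsLocalization.Away.lift (S.c * cub K) hu'
  have hι : ∀ G : K[X][X], ι (algebraMap K[X][X] _ G) = algebraMap K[X][X] F G := fun G =>
    IsLocalization.Away.lift_eq _ hu' G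
  have hιinj : Function.Injective ι := by
    rw [injective_iff_map_eq_zero]
    intro f hf
    obtain ⟨⟨N, s⟩, hN⟩ := IsLocalization.surj (Submonoid.powers (S.c * cub K)) f
    have h1 := congrArg ι hN
    rw [map_mul, hf, zero_mul, hι] at h1
    have h2 : N = 0 := by
      apply hinj
      rw [map_zero, ← h1]
    rw [h2, map_zero] at hN
    have h3 : IsUnit (algebraMap K[X][X] (Localization.Away (S.c * cub K)) s) :=
      IsLocalization.map_units _ s
    exact (h3.mul_left_eq_zero).mp hN
  have hfrac : ∀ (N : K[X][X]) (i j : ℕ), ∃ f : Localization.Away (S.c * cub K),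
      f * algebraMap K[X][X] _ (S.c ^ i * cub K ^ j) = algebraMap K[X][X] _ N := by
    intro N i j
    have hgu : IsUnit (algebraMap K[X][X] (Localization.Away (S.c * cub K)) (S.c * cub K)) :=
      IsLocalization.Away.algebraMap_isUnit _
    rw [map_mul] at hgu
    have h1 : IsUnit (algebraMap K[X][X] (Localization.Away (S.c * cub K))
        (S.c ^ i * cub K ^ j)) := by
      rw [map_mul, map_pow, map_pow]
      exact ((isUnit_of_mul_isUnit_left hgu).pow i).mul ((isUnit_of_mul_isUnit_right hgu).pow j)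
    obtain ⟨w, hw⟩ := h1.exists_left_inv
    refine ⟨w * algebraMap K[X][X] _ N, ?_⟩
    calc w * algebraMap K[X][X] _ N * algebraMap K[X][X] _ (S.c ^ i * cub K ^ j)
        = (w * algebraMap K[X][X] _ (S.c ^ i * cub K ^ j)) * algebraMap K[X][X] _ N := by ring
      _ = _ := by rw [hw, one_mul]
  have hrange : ∀ r : reg S F, (r : F) ∈ ι.range := by
    rintro ⟨r, N, i, j, _, hr⟩
    obtain ⟨f, hf⟩ := hfrac N i j
    refine ⟨f, ?_⟩
    have h1 := congrArg ι hf
    rw [map_mul, hι, hι] at h1
    have h2 : algebraMap K[X][X] F (S.c ^ i * cub K ^ j) ≠ 0 := by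
      intro h
      rw [← map_zero (algebraMap K[X][X] F)] at h
      exact mul_ne_zero (pow_ne_zero _ (c_ne_zero S)) (pow_ne_zero _ cub_ne_zero) (hinj h)
    exact mul_right_cancel₀ h2 (h1.trans hr.symm)
  let e : Localization.Away (S.c * cub K) ≃+* ι.range :=
    RingEquiv.ofBijective ι.rangeRestrict
      ⟨fun a b hab => hιinj (congrArg Subtype.val hab), ι.rangeRestrict_surjective⟩
  let inc : reg S F →+* ι.range := (reg S F).val.toRingHom.codRestrict ι.range hrange
  have he : ∀ r : reg S F, ι (e.symm (inc r)) = r := by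
    intro r
    have h1 : e (e.symm (inc r)) = inc r := e.apply_symm_apply _
    exact congrArg Subtype.val h1
  refine ⟨Φ.comp (e.symm.toRingHom.comp inc), ?_⟩
  intro r N i j hr
  have h1 : e.symm (inc r) * algebraMap K[X][X] _ (S.c ^ i * cub K ^ j) =
      algebraMap K[X][X] _ N := by
    apply hιinj
    rw [map_mul, he, hι, hι]
    exact hr
  have h2 := congrArg Φ h1
  rw [map_mul, hΦ, hΦ, map_mul, map_pow, map_pow] at h2
  exact h2

theorem tst_of_integral {F : Type w} [Field F] [Algebra K F] [Algebra K[X][X] F]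
    [IsScalarTower K K[X][X] F] [IsFractionRing K[X][X] F]
    {L : Type v} [Field L] [Algebra K L] (V : ValuationSubring L)
    (hK : ∀ a : K, V.valuation (algebraMap K L a) ≤ 1) (S : Conf K) {p q : reg S F}
    {h N : K[X][X]} {k e1 e2 : ℕ}
    (hp : (p : F) * algebraMap K[X][X] F (S.c ^ k) = algebraMap K[X][X] F h)
    (hq : (q : F) * algebraMap K[X][X] F (S.c ^ e1 * cub K ^ e2) = algebraMap K[X][X] F N)
    (hint : ProperPair K p q) : Tst V S h k N e1 e2 := by
  intro x y hc hg hh hN f l hf
  obtain ⟨Ψ, hΨ⟩ := exists_hom (F := F) S hc hg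
  have hΨK : ∀ a : K, Ψ (algebraMap K _ a) = algebraMap K L a := by
    intro a
    have h1 := hΨ (algebraMap K _ a) (C (C a)) 0 0 (by
      rw [pow_zero, pow_zero, mul_one, map_one, mul_one]
      exact IsScalarTower.algebraMap_apply K K[X][X] F a)
    rw [pow_zero, pow_zero, mul_one, mul_one] at h1
    rw [h1]
    exact ev_CC x y a
  have hvc : 0 < V.valuation (ev x y S.c) := by
    rw [zero_lt_iff, V.valuation.ne_zero_iff]; exact hc
  have hvg : 0 < V.valuation (ev x y (cub K)) := by
    rw [zero_lt_iff, V.valuation.ne_zero_iff]; exact hg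
  have hvp : V.valuation (Ψ p) ≤ 1 := by
    have h1 := congrArg V.valuation (hΨ p h k 0 (by rw [pow_zero, mul_one]; exact hp))
    simp only [map_mul, map_pow, pow_zero, mul_one] at h1
    have h2 : V.valuation (Ψ p) * V.valuation (ev x y S.c) ^ k ≤
        1 * V.valuation (ev x y S.c) ^ k := by
      rw [one_mul]
      exact h1.le.trans hh
    exact le_of_mul_le_mul_right h2 (pow_pos hvc _)
  have hvq : V.valuation (Ψ q) ≤ 1 := by
    have h1 := congrArg V.valuation (hΨ q N e1 e2 hq)
    simp only [map_mul, map_pow] at h1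
    have h2 : V.valuation (Ψ q) *
        (V.valuation (ev x y S.c) ^ e1 * V.valuation (ev x y (cub K)) ^ e2) ≤
        1 * (V.valuation (ev x y S.c) ^ e1 * V.valuation (ev x y (cub K)) ^ e2) := by
      rw [one_mul]
      exact h1.le.trans hN
    exact le_of_mul_le_mul_right h2 (mul_pos (pow_pos hvc _) (pow_pos hvg _))
  have hA : ∀ a ∈ Algebra.adjoin K ({p, q} : Set (reg S F)), Ψ a ∈ V := by
    intro a ha
    induction ha using Algebra.adjoin_induction with
    | mem x hx =>
      rw [← V.valuation_le_one_iff]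
      rcases hx with rfl | hx
      · exact hvp
      · rw [Set.mem_singleton_iff] at hx
        rw [hx]
        exact hvq
    | algebraMap r =>
      rw [← V.valuation_le_one_iff, hΨK]
      exact hK r
    | add x y _ _ hx hy => rw [map_add]; exact V.add_mem _ _ hx hy
    | mul x y _ _ hx hy => rw [map_mul]; exact V.mul_mem _ _ hx hy
  have hR : ∀ r : reg S F, V.valuation (Ψ r) ≤ 1 := by
    intro r
    obtain ⟨P, hP, hP0⟩ := hint r
    let ψ : Algebra.adjoin K ({p, q} : Set (reg S F)) →+* V :=
      (Ψ.comp (Algebra.adjoin K ({p, q} : Set (reg S F))).val.toRingHom).codRestrict V.toSubring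
        (fun a => hA a a.2)
    have h7 : IsIntegral V (Ψ r) := by
      refine ⟨P.map ψ, hP.map ψ, ?_⟩
      rw [eval₂_map]
      have h8 : (algebraMap V L).comp ψ =
          Ψ.comp (algebraMap (Algebra.adjoin K ({p, q} : Set (reg S F))) (reg S F)) := rfl
      rw [h8, ← hom_eval₂, hP0, map_zero]
    obtain ⟨z, hz⟩ := IsIntegrallyClosed.isIntegral_iff.mp h7
    rw [V.valuation_le_one_iff, ← hz]
    exact z.2
  -- the test function
  have hg0 : algebraMap K[X][X] F (cub K) ≠ 0 := by
    intro h
    rw [← map_zero (algebraMap K[X][X] F)] at h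
    exact cub_ne_zero (IsFractionRing.injective _ _ h)
  have hf' : (algebraMap K[X][X] F f / algebraMap K[X][X] F (cub K) ^ l) *
      algebraMap K[X][X] F (S.c ^ 0 * cub K ^ l) = algebraMap K[X][X] F f := by
    rw [pow_zero, one_mul, map_pow, div_mul_cancel₀ _ (pow_ne_zero _ hg0)]
  have h9 := hR ⟨algebraMap K[X][X] F f / algebraMap K[X][X] F (cub K) ^ l, f, 0, l, hf, hf'⟩
  have h10 := congrArg V.valuation (hΨ ⟨_, f, 0, l, hf, hf'⟩ f 0 l hf')
  simp only [map_mul, map_pow, pow_zero, one_mul] at h10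
  calc V.valuation (ev x y f) = _ := h10.symm
    _ ≤ 1 * V.valuation (ev x y (cub K)) ^ l := by gcongr
    _ = _ := one_mul _

/-- no `q` makes `(p, q)` proper if `p` has no pole along the cubic -/
theorem not_proper [CharZero K] [IsAlgClosed K] {F : Type w} [Field F] [Algebra K F]
    [Algebra K[X][X] F] [IsScalarTower K K[X][X] F] [IsFractionRing K[X][X] F] (S : Conf K)
    (hb : S.b < 9 * S.a) (hne : S.m * S.b ≠ 3 * S.μ * S.a) (p q : reg S F)
    (hp : NoPole S (p : F)) : ¬ ProperPair K p q := by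
  intro hint
  obtain ⟨h, k, hh, hp'⟩ := hp
  obtain ⟨N, e1, e2, hN, hq'⟩ := q.2
  obtain ⟨L, _, _, _, V, t, ht0, ht, hK⟩ := exists_val K
  exact final hb hne hK ht0 ht hh e2 N hN (tst_of_integral V hK S hp' hq' hint)

end Pool.Agent.H81.RS
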