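import Pool.Agent.H81.RS.Core

namespace Pool.Agent.H81.RS

open Polynomial

universe u v

variable {K : Type u} [Field K] {L : Type v} [Field L] [Algebra K L]

variable {V : ValuationSubring L} {S : Conf K} {h F : K[X][X]} {k e1 e2 : ℕ}

theorem eval_ev_X (U t : L) (G : K[X][X]) : (ev (X : L[X]) (C t) G).eval U = ev U t G := by
  have := ev_map (K := K) ((aeval U : L[X] →ₐ[L] L).restrictScalars K) X (C t) G
  simpa using this

theorem eval_ev_C (U t : L) (G : K[X][X]) : (ev (C t : L[X]) X G).eval U = ev t U G := by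
  have := ev_map (K := K) ((aeval U : L[X] →ₐ[L] L).restrictScalars K) (C t) X G
  simpa using this

theorem val_aeval_lt_one (hK : ∀ a : K, V.valuation (algebraMap K L a) ≤ 1) {x : L}
    (hx : V.valuation x < 1) (P : K[X]) (h : P.coeff 0 = 0) : V.valuation (aeval x P) < 1 := by
  rw [← X_mul_divX_add P, h, map_zero, add_zero, map_mul, aeval_X, map_mul]
  have h3 : V.valuation (aeval x P.divX) ≤ 1 := by
    apply val_aeval_le V hK
    intro i _
    exact pow_le_one' hx.le i
  calc V.valuation x * V.valuation (aeval x P.divX) ≤ V.valuation x * 1 := by gcongr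
    _ < 1 := by rw [mul_one]; exact hx

theorem val_aeval_ge (hK : ∀ a : K, V.valuation (algebraMap K L a) ≤ 1) {x : L}
    (hx : V.valuation x < 1) (P : K[X]) {i : ℕ} (h : P.coeff i ≠ 0) :
    V.valuation x ^ i ≤ V.valuation (aeval x P) := by
  have hP : P ≠ 0 := by rintro rfl; simp at h
  rw [val_aeval_eq V hK hx P (n := P.natTrailingDegree)
    (fun j hj => coeff_eq_zero_of_lt_natTrailingDegree hj)
    (by rw [← trailingCoeff]; exact trailingCoeff_nonzero_iff_nonzero.mpr hP)]
  exact pow_le_pow_right_of_le_one' hx.le (natTrailingDegree_le_of_ne_zero h)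

variable [CharZero K]

/-- `q` has a pole along the cubic -/
theorem step_one (hb : S.b + 1 ≤ 9 * S.a) (hK : ∀ a : K, V.valuation (algebraMap K L a) ≤ 1)
    {t : L} (ht0 : t ≠ 0) (ht : V.valuation t < 1) (hT : Tst V S h k F e1 0) : False := by
  classical
  obtain ⟨s₀, hs₀⟩ := Infinite.exists_notMem_finset ({S.P, S.Q} : Finset K)
  simp only [Finset.mem_insert, Finset.mem_singleton, not_or] at hs₀
  exact plane_core hb hK hT hs₀.1 hs₀.2 (u := 0) (w := t) (by simp) ht ht0
    (by rw [pow_zero]; exact val_ev_le_one V hK (by simp) ht.le _)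

/-- the polar part of `q` along the cubic only vanishes at the two points -/
theorem step_two [IsAlgClosed L] (hb : S.b + 1 ≤ 9 * S.a)
    (hK : ∀ a : K, V.valuation (algebraMap K L a) ≤ 1)
    {t : L} (ht0 : t ≠ 0) (ht : V.valuation t < 1) (hT : Tst V S h k F e1 e2)
    (hres : res F ≠ 0) {s₀ : K} (hP : s₀ ≠ S.P) (hQ : s₀ ≠ S.Q) : (res F).eval s₀ ≠ 0 := by
  intro h0
  have hG : (sh s₀ F).coeff 0 ≠ 0 := by
    rw [sh_coeff_zero]
    intro h1
    apply hres
    have h2 : ((res F).comp (X + C s₀)).comp (X - C s₀) = 0 := by rw [h1, zero_comp]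
    rw [comp_assoc] at h2
    simpa using h2
  obtain ⟨i, hi⟩ : ∃ i, ((sh s₀ F).coeff 0).coeff i ≠ 0 := by
    by_contra hcon
    push Not at hcon
    exact hG (by ext i; rw [hcon i, coeff_zero])
  obtain ⟨R0, hR0, hR0'⟩ := coeff_ev_X t (sh s₀ F) 0
  obtain ⟨Ri, hRi, hRi'⟩ := coeff_ev_X t (sh s₀ F) i
  have h1 : V.valuation ((ev (X : L[X]) (C t) (sh s₀ F)).coeff 0) < 1 := by
    rw [hR0']
    apply val_aeval_lt_one hK ht
    rw [hR0, cf_sh_zero, h0]
  have h2 : V.valuation ((ev (X : L[X]) (C t) (sh s₀ F)).coeff i) = 1 := by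
    rw [hRi']
    apply val_aeval_eq_one V hK ht
    rw [hRi]
    exact hi
  obtain ⟨U, hU, hU1⟩ := exists_small_root V (ev (X : L[X]) (C t) (sh s₀ F)) (ρ := 1) i
    (by rw [h2, one_pow, one_mul]; exact h1)
  rw [IsRoot.def, eval_ev_X] at hU
  exact plane_core hb hK hT hP hQ hU1 ht ht0 (by rw [hU, map_zero]; exact zero_le)

/-- the order of the polar part at `Q` -/
theorem step_Q [IsAlgClosed L] (hb : S.b + 1 ≤ 9 * S.a)
    (hK : ∀ a : K, V.valuation (algebraMap K L a) ≤ 1)
    {t : L} (ht0 : t ≠ 0) (ht : V.valuation t < 1) (hT : Tst V S h k F e1 e2)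
    (hh : Good S h k 0) (hF : OrdGE S.Q S.a S.b (S.μ * S.a * e1 + S.b * e2) F) (he2 : 0 < e2)
    {A : ℕ} {R : K[X]} (hR : res F = (X - C S.Q) ^ A * R) (hR0 : R.eval S.Q ≠ 0) :
    S.a * A = S.μ * S.a * e1 + S.b * e2 := by
  have ha := S.a_pos
  have hvt : 0 < V.valuation t := by
    rw [zero_lt_iff, V.valuation.ne_zero_iff]; exact ht0
  have hG : (sh S.Q F).coeff 0 = X ^ A * R.comp (X + C S.Q) := by
    rw [sh_coeff_zero, hR]
    simp only [mul_comp, pow_comp, sub_comp, X_comp, C_comp]
    ring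
  have hlow : ∀ i < A, ((sh S.Q F).coeff 0).coeff i = 0 := by
    intro i hi
    rw [hG, coeff_X_pow_mul', if_neg (by omega)]
  have hA : ((sh S.Q F).coeff 0).coeff A ≠ 0 := by
    rw [hG, coeff_X_pow_mul', if_pos le_rfl, Nat.sub_self, coeff_zero_eq_eval_zero, eval_comp]
    simpa using hR0
  have hAge : S.μ * S.a * e1 + S.b * e2 ≤ S.a * A := by
    have := hF A 0 hA
    omega
  by_contra hne
  have hlt : S.μ * S.a * e1 + S.b * e2 < S.a * A := lt_of_le_of_ne hAge (Ne.symm hne)
  by_cases hcase : ∃ i j, cf (sh S.Q F) i j ≠ 0 ∧ S.a * i + S.b * j < S.a * A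
  · obtain ⟨i, j, hij, hij'⟩ := hcase
    have hta : V.valuation (t ^ S.a) < 1 := by
      rw [map_pow]; exact pow_lt_one₀ zero_le ht ha.ne'
    have h0 : V.valuation ((ev (C (t ^ S.a) : L[X]) X (sh S.Q F)).coeff 0) =
        V.valuation t ^ (S.a * A) := by
      rw [coeff_ev_C, val_aeval_eq V hK hta _ hlow hA, map_pow, ← pow_mul]
    have hj : V.valuation t ^ (S.a * i) ≤
        V.valuation ((ev (C (t ^ S.a) : L[X]) X (sh S.Q F)).coeff j) := by
      rw [coeff_ev_C]
      have := val_aeval_ge hK hta _ hij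
      rwa [map_pow, ← pow_mul] at this
    obtain ⟨w, hw, hw1⟩ := exists_small_root V (ev (C (t ^ S.a) : L[X]) X (sh S.Q F))
      (ρ := V.valuation t ^ S.b) j (by
        rw [h0]
        calc V.valuation t ^ (S.a * A) < V.valuation t ^ (S.a * i + S.b * j) :=
              pow_lt_pow_right_of_lt_one₀ hvt ht hij'
          _ = V.valuation t ^ (S.a * i) * (V.valuation t ^ S.b) ^ j := by
              rw [pow_add, pow_mul _ S.b j]
          _ ≤ _ := by gcongr)
    rw [IsRoot.def] at hw
    have hw0 : w ≠ 0 := by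
      rintro rfl
      rw [← coeff_zero_eq_eval_zero] at hw
      rw [hw, map_zero] at h0
      exact (pow_ne_zero _ hvt.ne') h0.symm
    rw [eval_ev_C] at hw
    exact Q_core hb hK hT hh (ρ := V.valuation t) hvt ht (u := t ^ S.a) (by rw [map_pow]) hw1 hw0
      (by rw [hw, map_zero]; exact zero_le)
  · push Not at hcase
    have hρ : V.valuation t ^ e2 < 1 := pow_lt_one₀ zero_le ht he2.ne'
    have hu : V.valuation (t ^ (e2 * S.a)) = (V.valuation t ^ e2) ^ S.a := by
      rw [map_pow, pow_mul]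
    have hwv : V.valuation (t ^ (e2 * S.b + 1)) = V.valuation t ^ (e2 * S.b + 1) := by
      rw [map_pow]
    have hw : V.valuation (t ^ (e2 * S.b + 1)) < (V.valuation t ^ e2) ^ S.b := by
      rw [hwv, ← pow_mul]
      exact pow_lt_pow_right_of_lt_one₀ hvt ht (Nat.lt_succ_self _)
    refine Q_core hb hK hT hh (ρ := V.valuation t ^ e2) (pow_pos hvt _) hρ hu hw
      (pow_ne_zero _ ht0) ?_
    refine (val_ord hK hρ.le hu.le hw.le (W := S.a * A) _ hcase).trans ?_
    rw [hwv, ← pow_mul, ← pow_mul, ← pow_mul, ← pow_add]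
    apply pow_le_pow_right_of_le_one' ht.le
    nlinarith

/-- the polar part does not vanish at the cusp -/
theorem step_C [IsAlgClosed L] (hb : S.b + 1 ≤ 9 * S.a)
    (hK : ∀ a : K, V.valuation (algebraMap K L a) ≤ 1)
    {t : L} (ht0 : t ≠ 0) (ht : V.valuation t < 1) (hT : Tst V S h k F e1 e2)
    (hh : Good S h k 0) (hFd : DegLE F (S.m * e1 + 3 * e2)) (hres : res F ≠ 0) :
    cf F 0 (S.m * e1 + 3 * e2) ≠ 0 := by
  intro h0
  have hvt : 0 < V.valuation t := by
    rw [zero_lt_iff, V.valuation.ne_zero_iff]; exact ht0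
  set D := S.m * e1 + 3 * e2 with hD
  have hG00 : cf (tw D F) 0 0 = 0 := by
    rw [cf_tw, if_pos (by omega), Nat.sub_zero, Nat.sub_zero, h0]
  by_cases hA : (tw D F).coeff 0 = 0
  · -- the line at infinity divides
    have hy : V.valuation (t ^ (3 * e2 + 2)) < 1 := by
      rw [map_pow]; exact pow_lt_one₀ zero_le ht (by omega)
    have h2 : V.valuation ((t ^ (3 * e2 + 2)) ^ 2) < V.valuation (t ^ 3) := by
      rw [← pow_mul, map_pow, map_pow]
      exact pow_lt_pow_right_of_lt_one₀ hvt ht (by omega)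
    have h3 : V.valuation ((t ^ (3 * e2 + 2)) ^ 2 - t ^ 3) = V.valuation (t ^ 3) :=
      Valuation.map_sub_eq_of_lt_right _ h2
    refine cusp_core hb hK hT hh hFd (x := t) (y := t ^ (3 * e2 + 2)) ht hy
      (pow_ne_zero _ ht0) ?_ ?_
    · intro h4
      rw [h4] at h2
      exact lt_irrefl _ h2
    · rw [h3, ← hD, ev_split, hA, map_zero, zero_add, map_mul]
      calc V.valuation (t ^ (3 * e2 + 2)) * V.valuation (ev t (t ^ (3 * e2 + 2)) (tw D F).divX)
          ≤ V.valuation (t ^ (3 * e2 + 2)) * 1 := by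
            gcongr
            exact val_ev_le_one V hK ht.le hy.le _
        _ = V.valuation t ^ (3 * e2 + 2) := by rw [mul_one, map_pow]
        _ ≤ V.valuation t ^ (3 * e2) := pow_le_pow_right_of_le_one' ht.le (by omega)
        _ = V.valuation (t ^ 3) ^ e2 := by rw [map_pow, pow_mul]
  by_cases hB : ∀ j, cf (tw D F) 0 j = 0
  · have hx : V.valuation (t ^ (2 * e2 + 1)) < 1 := by
      rw [map_pow]; exact pow_lt_one₀ zero_le ht (by omega)
    have h2 : V.valuation ((t ^ (2 * e2 + 1)) ^ 3) < V.valuation (t ^ 2) := by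
      rw [← pow_mul, map_pow, map_pow]
      exact pow_lt_pow_right_of_lt_one₀ hvt ht (by omega)
    have h3 : V.valuation (t ^ 2 - (t ^ (2 * e2 + 1)) ^ 3) = V.valuation (t ^ 2) :=
      Valuation.map_sub_eq_of_lt_left _ h2
    refine cusp_core hb hK hT hh hFd (x := t ^ (2 * e2 + 1)) (y := t) hx ht ht0 ?_ ?_
    · intro h4
      rw [h4] at h2
      exact lt_irrefl _ h2
    · rw [h3, ← hD]
      refine (val_ev_le V hK (B := V.valuation (t ^ (2 * e2 + 1))) _ ?_).trans ?_
      · intro i j hij
        rcases i with _ | i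
        · exact absurd (hB j) hij
        · calc V.valuation (t ^ (2 * e2 + 1)) ^ (i + 1) * V.valuation t ^ j
              ≤ V.valuation (t ^ (2 * e2 + 1)) ^ 1 * 1 := by
                apply mul_le_mul'
                · exact pow_le_pow_right_of_le_one' hx.le (by omega)
                · exact pow_le_one' ht.le _
            _ = _ := by rw [pow_one, mul_one]
      · rw [map_pow, map_pow, ← pow_mul]
        exact pow_le_pow_right_of_le_one' ht.le (by omega)
  · push Not at hB
    obtain ⟨j, hj⟩ := hB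
    have h1 : V.valuation ((ev (C t : L[X]) X (tw D F)).coeff 0) < 1 := by
      rw [coeff_ev_C]
      exact val_aeval_lt_one hK ht _ hG00
    have h1' : (ev (C t : L[X]) X (tw D F)).coeff 0 ≠ 0 := by
      rw [coeff_ev_C]
      obtain ⟨i, hi⟩ : ∃ i, ((tw D F).coeff 0).coeff i ≠ 0 := by
        by_contra hcon
        push Not at hcon
        exact hA (by ext i; rw [hcon i, coeff_zero])
      have := val_aeval_ge hK ht _ hi
      intro h2
      rw [h2, map_zero] at this
      exact absurd this (not_le.mpr (pow_pos hvt _))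
    have h2 : V.valuation ((ev (C t : L[X]) X (tw D F)).coeff j) = 1 := by
      rw [coeff_ev_C]
      exact val_aeval_eq_one V hK ht _ hj
    obtain ⟨y, hy, hy1⟩ := exists_small_root V (ev (C t : L[X]) X (tw D F)) (ρ := 1) j
      (by rw [h2, one_pow, one_mul]; exact h1)
    rw [IsRoot.def] at hy
    have hy0 : y ≠ 0 := by
      rintro rfl
      rw [← coeff_zero_eq_eval_zero] at hy
      exact h1' hy
    rw [eval_ev_C] at hy
    refine cusp_core hb hK hT hh hFd (x := t) (y := y) ht hy1 hy0 ?_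
      (by rw [← hD, hy, map_zero]; exact zero_le)
    intro hyt
    have h3 := ev_tw (L := L) hFd (x := t) hy0
    rw [hy, mul_eq_zero, or_iff_right (pow_ne_zero _ hy0)] at h3
    have h4 : 1 / y = (t / y) ^ 3 := by
      rw [div_pow, ← hyt]; field_simp
    rw [h4, ev_res] at h3
    have h5 : IsIntegral K (t / y) := by
      rw [← isAlgebraic_iff_isIntegral]
      exact ⟨res F, hres, h3⟩
    have h6 : V.valuation (t / y) ≤ 1 := by
      obtain ⟨p, hp, hp0⟩ := h5
      let φ : K →+* V :=
        (algebraMap K L).codRestrict V.toSubring (fun a => (V.valuation_le_one_iff _).mp (hK a))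
      have h7 : IsIntegral V (t / y) := by
        refine ⟨p.map φ, hp.map φ, ?_⟩
        rw [eval₂_map]
        exact hp0
      obtain ⟨z, hz⟩ := IsIntegrallyClosed.isIntegral_iff.mp h7
      rw [V.valuation_le_one_iff, ← hz]
      exact z.2
    have h8 : V.valuation (1 / y) ≤ 1 := by
      rw [h4, map_pow]; exact pow_le_one' h6 _
    have h9 : (1 : V.ValueGroup) = V.valuation y * V.valuation (1 / y) := by
      rw [← map_mul, mul_one_div_cancel hy0, map_one]
    have h10 : V.valuation y * V.valuation (1 / y) < 1 := by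
      calc V.valuation y * V.valuation (1 / y) ≤ V.valuation y * 1 := by gcongr
        _ < 1 := by rw [mul_one]; exact hy1
    rw [← h9] at h10
    exact lt_irrefl _ h10

end Pool.Agent.H81.RS
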